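import Pool.Agent.MP_48470b_gt.Sph.B3

/-! Smooth functions on three-space and the gnomonic chart of the sphere. -/

open scoped RealInnerProductSpace ContDiff

noncomputable section

namespace Pool.Agent.MP_48470b_gt.Dic

open Pool.Agent.MP_48470b_gt.Sph

/-- the chart domain -/
abbrev P3 := Fin 3 → ℝ

/-- smooth functions -/
def smC : Subalgebra ℝ (P3 → ℝ) where
  carrier := {u | ContDiff ℝ ∞ u}
  mul_mem' := fun {a b} (ha : ContDiff ℝ ∞ a) (hb : ContDiff ℝ ∞ b) => ha.mul hb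
  add_mem' := fun {a b} (ha : ContDiff ℝ ∞ a) (hb : ContDiff ℝ ∞ b) => ha.add hb
  algebraMap_mem' := fun c => (contDiff_const : ContDiff ℝ ∞ fun _ : P3 => c)

/-- The algebra of smooth real functions on three-space. -/
def C3 : Type := smC

instance : CommRing C3 := inferInstanceAs (CommRing smC)
instance : Algebra ℝ C3 := inferInstanceAs (Algebra ℝ smC)
instance : CoeFun C3 (fun _ => P3 → ℝ) := ⟨fun u => Subtype.val u⟩

/-- a smooth function as an element -/
def C3.mk (u : P3 → ℝ) (h : ContDiff ℝ ∞ u) : C3 := Subtype.mk u h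

@[simp] theorem C3.mk_apply (u : P3 → ℝ) (h) (x : P3) : C3.mk u h x = u x := rfl

theorem C3.sm (u : C3) : ContDiff ℝ ∞ (u : P3 → ℝ) := Subtype.property u

theorem C3.diff (u : C3) (x : P3) : DifferentiableAt ℝ (u : P3 → ℝ) x :=
  (u.sm.differentiable (by simp)) x

theorem C3.continuous (u : C3) : Continuous (u : P3 → ℝ) := u.sm.continuous

@[ext] theorem C3.ext {u v : C3} (h : ∀ x, u x = v x) : u = v := Subtype.ext (funext h)

@[simp] theorem C3.add_apply (u v : C3) (x : P3) : (u + v) x = u x + v x := rfl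
@[simp] theorem C3.mul_apply (u v : C3) (x : P3) : (u * v) x = u x * v x := rfl
@[simp] theorem C3.sub_apply (u v : C3) (x : P3) : (u - v) x = u x - v x := rfl
@[simp] theorem C3.neg_apply (u : C3) (x : P3) : (-u) x = -u x := rfl
@[simp] theorem C3.zero_apply (x : P3) : (0 : C3) x = 0 := rfl
@[simp] theorem C3.one_apply (x : P3) : (1 : C3) x = 1 := rfl
@[simp] theorem C3.smul_apply (c : ℝ) (u : C3) (x : P3) : (c • u) x = c * u x := rfl
@[simp] theorem C3.algebraMap_apply (c : ℝ) (x : P3) : (algebraMap ℝ C3 c) x = c := rfl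

/-- evaluation at a point -/
def evc (x : P3) : C3 →ₐ[ℝ] ℝ where
  toFun u := u x
  map_one' := rfl
  map_mul' _ _ := rfl
  map_zero' := rfl
  map_add' _ _ := rfl
  commutes' _ := rfl

@[simp] theorem evc_apply (x : P3) (u : C3) : evc x u = u x := rfl
@[simp] theorem C3.pow_apply (u : C3) (n : ℕ) (x : P3) : (u ^ n) x = u x ^ n :=
  map_pow (evc x) u n
@[simp] theorem C3.sum_apply {ι : Type*} (s : Finset ι) (u : ι → C3) (x : P3) :
    (∑ i ∈ s, u i) x = ∑ i ∈ s, u i x := map_sum (evc x) u s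
@[simp] theorem C3.prod_apply {ι : Type*} (s : Finset ι) (u : ι → C3) (x : P3) :
    (∏ i ∈ s, u i) x = ∏ i ∈ s, u i x := map_prod (evc x) u s
@[simp] theorem C3.natCast_apply (n : ℕ) (x : P3) : (n : C3) x = n := map_natCast (evc x) n
@[simp] theorem C3.ofNat_apply (n : ℕ) [n.AtLeastTwo] (x : P3) :
    (no_index (OfNat.ofNat n : C3)) x = OfNat.ofNat n := map_ofNat (evc x) n

/-- coordinate derivatives -/
def pd (a : Fin 3) : Derivation ℝ C3 C3 :=
  Derivation.mk'
    { toFun := fun u => C3.mk (fun x => fderiv ℝ (u : P3 → ℝ) x (Pi.single a 1))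
        ((u.sm.fderiv_right (m := ∞) (by simp)).clm_apply contDiff_const)
      map_add' := fun u v => C3.ext fun x => by
        change fderiv ℝ ((u : P3 → ℝ) + (v : P3 → ℝ)) x _ = fderiv ℝ (u : P3 → ℝ) x _ +
          fderiv ℝ (v : P3 → ℝ) x _
        rw [fderiv_add (u.diff x) (v.diff x)]; rfl
      map_smul' := fun c u => C3.ext fun x => by
        change fderiv ℝ (c • (u : P3 → ℝ)) x _ = c * fderiv ℝ (u : P3 → ℝ) x _
        rw [fderiv_const_smul (u.diff x)]; rfl }
    (fun u v => C3.ext fun x => by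
      change fderiv ℝ ((u : P3 → ℝ) * (v : P3 → ℝ)) x _ =
        u x * fderiv ℝ (v : P3 → ℝ) x _ + v x * fderiv ℝ (u : P3 → ℝ) x _
      rw [fderiv_mul (u.diff x) (v.diff x)]; simp)

theorem pd_apply (a : Fin 3) (u : C3) (x : P3) :
    pd a u x = fderiv ℝ (u : P3 → ℝ) x (Pi.single a 1) := rfl

theorem pd_comm (a b : Fin 3) (u : C3) : pd a (pd b u) = pd b (pd a u) := by
  have h : ∀ (a b : Fin 3) (x : P3), pd a (pd b u) x =
      fderiv ℝ (fderiv ℝ (u : P3 → ℝ)) x (Pi.single a 1) (Pi.single b 1) := by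
    intro a b x
    have h1 : DifferentiableAt ℝ (fderiv ℝ (u : P3 → ℝ)) x :=
      ((u.sm.fderiv_right (m := ∞) (by simp)).differentiable (by simp)) x
    change fderiv ℝ (fun y => fderiv ℝ (u : P3 → ℝ) y (Pi.single b 1)) x _ = _
    rw [fderiv_clm_apply h1 (differentiableAt_const _)]
    simp
  ext x
  rw [h, h]
  exact (u.sm.contDiffAt.isSymmSndFDerivAt (by simp; norm_cast)).eq _ _

theorem fderiv_eq_sum (u : C3) (x v : P3) :
    fderiv ℝ (u : P3 → ℝ) x v = ∑ a, v a * pd a u x := by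
  conv_lhs => rw [pi_eq_sum_univ' v]
  simp [pd_apply]

/-- the coordinates -/
def xi (a : Fin 3) : C3 := C3.mk (fun x => x a) (by fun_prop)

@[simp] theorem xi_apply (a : Fin 3) (x : P3) : xi a x = x a := rfl

theorem pd_xi (a b : Fin 3) : pd a (xi b) = if a = b then 1 else 0 := by
  ext x
  have h : HasFDerivAt (fun y : P3 => y b) (ContinuousLinearMap.proj b : P3 →L[ℝ] ℝ) x :=
    hasFDerivAt_apply b x
  change fderiv ℝ (fun y : P3 => y b) x _ = _
  rw [h.fderiv]
  by_cases hab : a = b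
  · simp [hab]
  · simp [hab, Ne.symm hab]

/-- composition with a function that is smooth at the values -/
def C3.comp (φ : ℝ → ℝ) (u : C3) (h : ∀ x, ContDiffAt ℝ ∞ φ (u x)) : C3 :=
  C3.mk (fun x => φ (u x)) (contDiff_iff_contDiffAt.2 fun x =>
    ContDiffAt.comp (g := φ) (f := (u : P3 → ℝ)) x (h x) u.sm.contDiffAt)

@[simp] theorem C3.comp_apply (φ : ℝ → ℝ) (u : C3) (h) (x : P3) :
    C3.comp φ u h x = φ (u x) := rfl

theorem exists_inv (u : C3) (h : ∀ x, u x ≠ 0) : ∃ v : C3, u * v = 1 :=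
  ⟨C3.comp (fun t => t⁻¹) u fun x => contDiffAt_inv ℝ (h x),
    C3.ext fun x => mul_inv_cancel₀ (h x)⟩

theorem exists_sqrt (u : C3) (h : ∀ x, 0 < u x) : ∃ v : C3, v ^ 2 = u ∧ ∀ x, 0 < v x :=
  ⟨C3.comp Real.sqrt u fun x => Real.contDiffAt_sqrt (h x).ne',
    C3.ext fun x => by simp [Real.sq_sqrt (h x).le], fun x => Real.sqrt_pos.2 (h x)⟩

/-- the linear part of the chart -/
def lin : P3 →L[ℝ] E4 :=
  LinearMap.toContinuousLinearMap
    { toFun := fun v => !₂[v 0, v 1, v 2, 0]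
      map_add' := fun v w => by ext i; fin_cases i <;> simp
      map_smul' := fun c v => by ext i; fin_cases i <;> simp }

theorem lin_apply (v : P3) : lin v = !₂[v 0, v 1, v 2, 0] := rfl

/-- the point above `ξ` -/
def up (x : P3) : E4 := !₂[x 0, x 1, x 2, 1]

theorem up_ne (x : P3) : up x ≠ 0 := fun h => by simpa [up] using congrArg (fun y : E4 => y 3) h

theorem up_eq (x : P3) : up x = lin x + !₂[0, 0, 0, 1] := by
  ext i; fin_cases i <;> simp [up, lin_apply]

theorem hasFDerivAt_up (x : P3) : HasFDerivAt up lin x := by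
  rw [show up = fun x => lin x + !₂[0, 0, 0, 1] from funext up_eq]
  exact lin.hasFDerivAt.add_const _

theorem contDiff_up : ContDiff ℝ ∞ up := by
  rw [show up = fun x => lin x + !₂[0, 0, 0, 1] from funext up_eq]
  exact lin.contDiff.add contDiff_const

/-- a function on the sphere read in the chart -/
def ch : R →ₐ[ℝ] C3 where
  toFun u := C3.mk (fun x => hom u (up x)) (contDiff_iff_contDiffAt.2 fun x =>
    ContDiffAt.comp (g := hom u) (f := up) x (u.sm (up_ne x)) contDiff_up.contDiffAt)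
  map_one' := rfl
  map_mul' _ _ := rfl
  map_zero' := rfl
  map_add' _ _ := rfl
  commutes' _ := rfl

theorem ch_apply (u : R) (x : P3) : ch u x = hom u (up x) := rfl

theorem ch_apply' (u : R) (x : P3) : ch u x = u (pr (up x)) := rfl

theorem ch_vec (u : R) (a b c : ℝ) : ch u ![a, b, c] = hom u !₂[a, b, c, 1] := rfl

/-- the chart coordinates of a point -/
def dn (x : E4) : P3 := ![x 0 / x 3, x 1 / x 3, x 2 / x 3]

theorem pr_up_dn {x : S3} (h : 0 < (x : E4) 3) : pr (up (dn x)) = x := by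
  have e : up (dn x) = ((x : E4) 3)⁻¹ • (x : E4) := by
    ext i; fin_cases i <;> simp [up, dn, div_eq_inv_mul, h.ne']
  rw [e, pr_smul (inv_pos.2 h), pr_coe]

theorem ch_dn (u : R) {x : S3} (h : 0 < (x : E4) 3) : ch u (dn x) = u x := by
  rw [ch_apply', pr_up_dn h]

theorem fderiv_ch (u : R) (x v : P3) :
    fderiv ℝ (ch u : P3 → ℝ) x v = fderiv ℝ (hom u) (up x) (lin v) := by
  have h := ((u.diff (up_ne x)).hasFDerivAt.comp x (hasFDerivAt_up x)).fderiv
  exact congrArg (fun l : P3 →L[ℝ] ℝ => l v) h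

theorem pd_ch (a : Fin 3) (u : R) (x : P3) :
    pd a (ch u) x = fderiv ℝ (hom u) (up x) (lin (Pi.single a 1)) := fderiv_ch u x _

/-- a linear vector field in the chart -/
theorem ch_D (A : E4 →L[ℝ] E4) (u : R) (x : P3) :
    ch (D A u) x = ∑ a : Fin 3, (A (up x) a.castSucc - x a * A (up x) 3) * pd a (ch u) x := by
  rw [ch_apply, hom_D_apply A u (up_ne x), ← fderiv_eq_sum, fderiv_ch]
  have e : A (up x) = lin (fun a : Fin 3 => A (up x) a.castSucc - x a * A (up x) 3) +
      A (up x) 3 • up x := by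
    ext i; fin_cases i <;> simp [up, lin_apply, mul_comm]
  conv_lhs => rw [e]
  rw [map_add, map_smul, fderiv_hom_self u (up_ne x), smul_zero, add_zero]

/-- a field `x ↦ x₃ e_a` is the coordinate derivative -/
theorem ch_dd {A : E4 →L[ℝ] E4} {a : Fin 3}
    (h : ∀ y, A y = y 3 • EuclideanSpace.single a.castSucc 1) (u : R) :
    ch (D A u) = pd a (ch u) := by
  ext x
  rw [ch_D]
  fin_cases a <;> simp [h, up, Fin.sum_univ_three]

/-- coefficients of the frame in the chart -/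
def ec : Matrix (Fin 3) (Fin 3) C3 :=
  !![-xi 1 + xi 0 * xi 2, xi 0 + xi 1 * xi 2, 1 + xi 2 * xi 2;
     -xi 2 - xi 0 * xi 1, -1 - xi 1 * xi 1, xi 0 - xi 1 * xi 2;
     -1 - xi 0 * xi 0, xi 2 - xi 0 * xi 1, -xi 1 - xi 0 * xi 2]

theorem ch_E (b : Fin 3) (u : R) : ch (E b u) = ∑ a, ec b a * pd a (ch u) := by
  ext x
  rw [E, ch_D, C3.sum_apply]
  refine Finset.sum_congr rfl fun a _ => ?_
  rw [C3.mul_apply]
  congr 1
  fin_cases a <;> fin_cases b <;> simp [mat_apply, eM, ec, up, Fin.sum_univ_four] <;> ring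

/-- `1 + |ξ|²` -/
def ww : C3 := 1 + xi 0 * xi 0 + xi 1 * xi 1 + xi 2 * xi 2

theorem ww_apply (x : P3) : ww x = 1 + x 0 ^ 2 + x 1 ^ 2 + x 2 ^ 2 := by simp [ww, sq]

theorem one_le_ww (x : P3) : 1 ≤ ww x := by rw [ww_apply]; nlinarith

theorem det_ec : ec.det = -ww ^ 2 := by
  simp [ec, ww, Matrix.det_fin_three]; ring

theorem ec_gram (a c : Fin 3) :
    ∑ b, ec b a * ec b c = ww * ((if a = c then 1 else 0) + xi a * xi c) := by
  fin_cases a <;> fin_cases c <;> simp [ec, ww, Fin.sum_univ_three] <;> ring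

theorem ec_first (c : Fin 3) : ∑ b, ∑ a, ec b a * pd a (ec b c) = 2 * ww * xi c := by
  fin_cases c <;> simp [ec, ww, Fin.sum_univ_three, pd_xi] <;> ring

/-- the Laplace operator of the round sphere in the chart -/
theorem ch_Lap (u : R) : ch (Lap u) =
    ww * (∑ a, pd a (pd a (ch u)) + ∑ a, ∑ c, xi a * xi c * pd a (pd c (ch u)) +
      2 * ∑ c, xi c * pd c (ch u)) := by
  have h1 := ec_gram
  have h2 := ec_first
  simp only [Lap_apply, map_sum, ch_E, Derivation.leibniz, smul_eq_mul]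
  simp only [Fin.sum_univ_three] at h1 h2 ⊢
  have a00 := h1 0 0; have a01 := h1 0 1; have a02 := h1 0 2
  have a10 := h1 1 0; have a11 := h1 1 1; have a12 := h1 1 2
  have a20 := h1 2 0; have a21 := h1 2 1; have a22 := h1 2 2
  simp only [Fin.reduceEq, if_true, if_false] at a00 a01 a02 a10 a11 a12 a20 a21 a22
  linear_combination pd 0 (pd 0 (ch u)) * a00 + pd 0 (pd 1 (ch u)) * a01 + pd 0 (pd 2 (ch u)) * a02
    + pd 1 (pd 0 (ch u)) * a10 + pd 1 (pd 1 (ch u)) * a11 + pd 1 (pd 2 (ch u)) * a12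
    + pd 2 (pd 0 (ch u)) * a20 + pd 2 (pd 1 (ch u)) * a21 + pd 2 (pd 2 (ch u)) * a22
    + pd 0 (ch u) * h2 0 + pd 1 (ch u) * h2 1 + pd 2 (ch u) * h2 2

end Pool.Agent.MP_48470b_gt.Dic
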