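import Pool.Agent.MP_48470b_gt.Dic.Bnd
import Pool.Agent.MP_48470b_gt.TM.Defs

/-! Seminorms that control a function and its derivatives at a point. -/

open Finset
open scoped NNReal

noncomputable section

namespace Pool.Agent.MP_48470b_gt.Dic

open Pool.Agent.MP_48470b_gt.Sph Pool.Agent.MP48470b.An

section nu

variable {A : Type*} [CommRing A] [Algebra ℝ A] (φ : A →ₐ[ℝ] ℝ) (d : I3 → Derivation ℝ A A)
  (lam : ℝ≥0)

/-- the value and the derivatives up to order `k` -/
def nu : ℕ → Seminorm ℝ A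
  | 0 => (normSeminorm ℝ ℝ).comp φ.toLinearMap
  | k + 1 => nu k + lam • ((nu k).comp (d 0 : A →ₗ[ℝ] A) + (nu k).comp (d 1 : A →ₗ[ℝ] A) +
      (nu k).comp (d 2 : A →ₗ[ℝ] A))

theorem nu_zero (u : A) : nu φ d lam 0 u = |φ u| := rfl

theorem nu_succ (k : ℕ) (u : A) :
    nu φ d lam (k + 1) u = nu φ d lam k u + lam * ∑ i, nu φ d lam k (d i u) := by
  rw [Fin.sum_univ_three]; rfl

theorem nu_le_succ (k : ℕ) (u : A) : nu φ d lam k u ≤ nu φ d lam (k + 1) u := by
  rw [nu_succ]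
  exact le_add_of_nonneg_right (mul_nonneg lam.2 (sum_nonneg fun _ _ => apply_nonneg _ _))

theorem nu_mono {k l : ℕ} (h : k ≤ l) (u : A) : nu φ d lam k u ≤ nu φ d lam l u :=
  monotone_nat_of_le_succ (f := fun k => nu φ d lam k u) (fun k => nu_le_succ φ d lam k u) h

theorem abs_le_nu (k : ℕ) (u : A) : |φ u| ≤ nu φ d lam k u := nu_mono φ d lam (Nat.zero_le k) u

theorem nu_der (k : ℕ) (u : A) :
    lam * ∑ i, nu φ d lam k (d i u) ≤ nu φ d lam (k + 1) u := by
  rw [nu_succ]; exact le_add_of_nonneg_left (apply_nonneg _ _)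

theorem nu_mul (k : ℕ) : ∀ u v : A, nu φ d lam k (u * v) ≤ nu φ d lam k u * nu φ d lam k v := by
  induction k with
  | zero => intro u v; simp [nu_zero, abs_mul]
  | succ k ih =>
    intro u v
    have h1 : ∀ i, nu φ d lam k (d i (u * v)) ≤ nu φ d lam k u * nu φ d lam k (d i v) +
        nu φ d lam k v * nu φ d lam k (d i u) := fun i => by
      rw [Derivation.leibniz, smul_eq_mul, smul_eq_mul]
      exact (map_add_le_add _ _ _).trans (add_le_add (ih _ _) (ih _ _))
    have h2 := mul_le_mul_of_nonneg_left (sum_le_sum fun i (_ : i ∈ univ) => h1 i) lam.2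
    rw [sum_add_distrib, ← mul_sum, ← mul_sum] at h2
    have h3 : 0 ≤ (lam * ∑ i, nu φ d lam k (d i u)) * (lam * ∑ i, nu φ d lam k (d i v)) :=
      mul_nonneg (mul_nonneg lam.2 (sum_nonneg fun _ _ => apply_nonneg _ _))
        (mul_nonneg lam.2 (sum_nonneg fun _ _ => apply_nonneg _ _))
    have h4 := ih u v
    simp only [nu_succ]
    change (lam : ℝ) * _ ≤ (lam : ℝ) * _ at h2
    nlinarith

theorem nu_const (k : ℕ) (c : ℝ) : nu φ d lam k (algebraMap ℝ A c) = |c| := by
  induction k with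
  | zero => simp [nu_zero]
  | succ k ih => simp [nu_succ, ih]

theorem nu_one (k : ℕ) : nu φ d lam k 1 = 1 := by simpa using nu_const φ d lam k 1

theorem nu_pow (k : ℕ) (u : A) (n : ℕ) : nu φ d lam k (u ^ n) ≤ nu φ d lam k u ^ n := by
  induction n with
  | zero => simp [nu_one]
  | succ n ih =>
    rw [pow_succ, pow_succ]
    exact (nu_mul φ d lam k _ _).trans (mul_le_mul_of_nonneg_right ih (apply_nonneg _ _))

/-- an affine function -/
theorem nu_lin {X : A} {c : I3 → ℝ} (h : ∀ a, d a X = algebraMap ℝ A (c a)) (k : ℕ) :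
    nu φ d lam k X = |φ X| + k * lam * ∑ a, |c a| := by
  induction k with
  | zero => simp [nu_zero]
  | succ k ih => simp only [nu_succ, ih, h, nu_const]; push_cast; ring

theorem nu_sem {X : I3 → A} {c : I3 → I3 → ℝ} (h : ∀ i a, d a (X i) = algebraMap ℝ A (c i a))
    {k : ℕ} (h1 : ∀ i, |φ (X i)| + k * lam * ∑ a, |c i a| ≤ 1) : TM.Sem X (nu φ d lam k) :=
  ⟨nu_mul φ d lam k, (nu_one φ d lam k).le, fun i => (nu_lin φ d lam (h i) k).trans_le (h1 i)⟩

/-- a combination of the derivations costs one order -/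
theorem nu_comb {δ : A → A} {b : I3 → ℝ} (hδ : ∀ u, δ u = ∑ c, b c • d c u) {L : ℝ}
    (hL : ∀ c, |b c| ≤ L * lam) (h0 : 0 ≤ L) (k : ℕ) (u : A) :
    nu φ d lam k (δ u) ≤ L * nu φ d lam (k + 1) u := by
  have h1 : nu φ d lam k (δ u) ≤ ∑ c, L * lam * nu φ d lam k (d c u) := by
    rw [hδ]
    refine (Finset.le_sum_of_subadditive _ (map_zero _).le (map_add_le_add _) _ _).trans
      (sum_le_sum fun c _ => ?_)
    rw [map_smul_eq_mul]
    exact mul_le_mul_of_nonneg_right (hL c) (apply_nonneg _ _)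
  rw [← mul_sum, mul_assoc] at h1
  exact h1.trans (mul_le_mul_of_nonneg_left (nu_der φ d lam k u) h0)

theorem nu_d {L : ℝ} (hL : 1 ≤ L * lam) (i : I3) (k : ℕ) (u : A) :
    nu φ d lam k (d i u) ≤ L * nu φ d lam (k + 1) u := by
  have h0 : 0 ≤ L := by
    by_contra hc
    nlinarith [lam.2, mul_nonneg (neg_nonneg.2 (not_le.1 hc).le) lam.coe_nonneg]
  refine nu_comb φ d lam (δ := d i) (b := Pi.single i 1) (fun u => ?_) (fun c => ?_) h0 k u
  · fin_cases i <;> simp
  · by_cases hc : c = i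
    · simpa [hc] using hL
    · simpa [hc] using zero_le_one.trans hL

/-- the bound that follows from bounds `μ j` for the words of length `j` -/
def bw (t : ℝ) : ℕ → (ℕ → ℝ) → ℝ
  | 0, μ => μ 0
  | k + 1, μ => bw t k μ + t * bw t k fun j => μ (j + 1)

theorem nu_le_bw (k : ℕ) : ∀ (μ : ℕ → ℝ) (u : A), (∀ J : List I3, J.length ≤ k →
    |φ (J.foldr (fun a v => d a v) u)| ≤ μ J.length) → nu φ d lam k u ≤ bw (3 * lam) k μ := by
  induction k with
  | zero => exact fun μ u h => h [] le_rfl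
  | succ k ih =>
    intro μ u h
    have h1 : ∀ i, nu φ d lam k (d i u) ≤ bw (3 * lam) k fun j => μ (j + 1) := fun i =>
      ih _ _ fun J hJ => by simpa using h (J ++ [i]) (by simpa using hJ)
    have h2 := mul_le_mul_of_nonneg_left (sum_le_sum fun i (_ : i ∈ univ) => h1 i)
      lam.coe_nonneg
    have h3 := ih μ u fun J hJ => h J (by omega)
    rw [nu_succ, bw]
    simp only [sum_const, card_univ, Fintype.card_fin, nsmul_eq_mul, Nat.cast_ofNat] at h2
    linarith

theorem nu_one_eq (u : A) : nu φ d lam 1 u = |φ u| + lam * ∑ i, |φ (d i u)| := nu_succ φ d lam 0 u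

theorem nu_two_eq (u : A) : nu φ d lam 2 u =
    |φ u| + 2 * lam * ∑ i, |φ (d i u)| + lam ^ 2 * ∑ p : I3 × I3, |φ (d p.1 (d p.2 u))| := by
  rw [nu_succ, Fintype.sum_prod_type_right]
  simp only [nu_one_eq, Fin.sum_univ_three]
  ring

theorem nu_sqrt_aux {w e : A} (h : w * (w + 2) = e) (h0 : 0 < φ w + 1) (k : ℕ)
    (hk : nu φ d lam k e ≤ 1 / 2) : nu φ d lam k w ≤ nu φ d lam k e := by
  induction k with
  | zero =>
    rw [nu_zero, nu_zero, ← h, map_mul, abs_mul, map_add, map_ofNat]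
    exact le_mul_of_one_le_right (abs_nonneg _) (le_trans (by linarith) (le_abs_self _))
  | succ k ih =>
    have h1 := (nu_le_succ φ d lam k e).trans hk
    have h2 := ih h1
    have h3 : ∀ i, nu φ d lam k (d i w) ≤ nu φ d lam k (d i e) := fun i => by
      have e1 : (2 : ℝ) • d i w = d i e - (2 : ℝ) • (w * d i w) := by
        have e2 : d i (2 : A) = 0 := by
          rw [← map_ofNat (algebraMap ℝ A) 2]; exact (d i).map_algebraMap _
        rw [← h, Derivation.leibniz, map_add, e2, two_smul, two_smul, smul_eq_mul, smul_eq_mul]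
        ring
      have h4 := map_sub_le_add (nu φ d lam k) (d i e) ((2 : ℝ) • (w * d i w))
      rw [← e1, map_smul_eq_mul, map_smul_eq_mul, Real.norm_two] at h4
      have h5 := nu_mul φ d lam k w (d i w)
      have h6 := mul_le_mul_of_nonneg_right (h2.trans h1) (apply_nonneg (nu φ d lam k) (d i w))
      linarith
    rw [nu_succ, nu_succ]
    exact add_le_add h2 (mul_le_mul_of_nonneg_left (sum_le_sum fun i _ => h3 i) lam.coe_nonneg)

/-- **The square root test.** -/
theorem nu_sqrt {q D y : A} (hq : q ^ 2 * D = 1) (q0 : 0 < φ q) (y0 : 0 < φ y) {k : ℕ} {ε : ℝ}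
    (h : nu φ d lam k (y ^ 2 * D - 1) ≤ ε) (hε : ε ≤ 1 / 2) :
    nu φ d lam k (q - y) ≤ 2 * ε * nu φ d lam k y := by
  have h1 : (y * (q * D) - 1) * (y * (q * D) - 1 + 2) = y ^ 2 * D - 1 := by
    linear_combination y ^ 2 * D * hq
  have h2 : 0 < φ D := by
    have := congrArg φ hq
    rw [map_mul, map_pow, map_one] at this
    exact pos_of_mul_pos_right (this ▸ one_pos) (sq_nonneg _)
  have h3 := (nu_sqrt_aux φ d lam h1 (by simp; positivity) k (h.trans hε)).trans h
  have h4 : q - y = -((q - y) * (y * (q * D) - 1) + y * (y * (q * D) - 1)) := by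
    linear_combination y * hq
  have h5 := map_add_le_add (nu φ d lam k) ((q - y) * (y * (q * D) - 1)) (y * (y * (q * D) - 1))
  rw [← map_neg_eq_map, ← h4] at h5
  have h6 := (nu_mul φ d lam k (q - y) _).trans (mul_le_mul_of_nonneg_left (h3.trans hε)
    (apply_nonneg _ _))
  have h7 := (nu_mul φ d lam k y _).trans (mul_le_mul_of_nonneg_left h3 (apply_nonneg _ _))
  linarith

end nu

namespace Fm.Fr

variable {f : I4 → R} {h : Imm f} {Φ : Fr h} {x : P3} {κ : ℝ}

/-- a function and its first two tangential derivatives from the seminorm of order two -/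
theorem Kap.of_nu (hκ : Φ.Kap x κ) (u : R) {lam : ℝ≥0} {η L m : ℝ} (hL : 1 ≤ L * lam)
    (hu : Dic.nu (evc x) Φ.p lam 2 (ch u) ≤ η) (hm : Φ.m2 x ≤ m) : |ch u x| ≤ η ∧
      nr (fun i => ch ((dc h).gr u i) x) ≤ κ * (L * η / 2) ∧
      nr (fun p => ch ((dc h).dT ((dc h).gr u) p) x) ≤
        κ ^ 2 * (L ^ 2 * η + 2 * m * (κ * (L * η / 2))) := by
  refine ⟨(abs_le_nu (evc x) Φ.p lam 2 _).trans hu, ?_⟩
  have l0 := lam.coe_nonneg
  have h0 : 0 ≤ L := by
    by_contra hc
    nlinarith [mul_nonneg (neg_nonneg.2 (not_le.1 hc).le) l0]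
  rw [nu_two_eq] at hu
  simp only [evc_apply] at hu
  have a0 := abs_nonneg (ch u x)
  have a1 : 0 ≤ ∑ i, |Φ.p i (ch u) x| := sum_nonneg fun _ _ => abs_nonneg _
  have a2 : 0 ≤ ∑ p : I3 × I3, |Φ.p p.1 (Φ.p p.2 (ch u)) x| := sum_nonneg fun _ _ => abs_nonneg _
  refine hκ.s12 u ((nr_le_sum_abs _).trans ?_) ((nr_le_sum_abs _).trans ?_) hm
  · have b1 : 2 * lam * ∑ i, |Φ.p i (ch u) x| ≤ η := by nlinarith [mul_nonneg (sq_nonneg (lam : ℝ)) a2]
    nlinarith [mul_le_mul_of_nonneg_left b1 h0, mul_le_mul_of_nonneg_right hL a1]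
  · have b2 : lam ^ 2 * ∑ p : I3 × I3, |Φ.p p.1 (Φ.p p.2 (ch u)) x| ≤ η := by
      nlinarith [mul_nonneg l0 a1]
    have b3 : 1 ≤ (L * lam) ^ 2 := one_le_pow₀ hL
    nlinarith [mul_le_mul_of_nonneg_left b2 (sq_nonneg L), mul_le_mul_of_nonneg_right b3 a2]

end Fm.Fr

end Pool.Agent.MP_48470b_gt.Dic
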