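import Pool.Agent.MP_48470b_gt.Dic.Red2

/-! Auxiliary inequalities for the tests on a box. -/

open Finset

noncomputable section

namespace Pool.Agent.MP_48470b_gt.Dic

open Pool.Agent.MP_48470b_gt.Sph Pool.Agent.MP48470b.An Emb

theorem chk_of {X N : Fin 4 → ℝ} {A : ℝ} (hN : sq4 N = 1) (hA : 0 < A)
    (tr : 0 ≤ -(64 * (A * tv X N + sq4 X ^ 2) + A ^ 2 * sq4 X)) (bd : 1 / 4 ≤ sq4 X)
    (ml : 0 ≤ sq4 X + 12 * (X 0 ^ 2 + X 1 * (X 1 + X 2 + X 3)))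
    (cs : (sq4 X ≤ 6 / 5 ∧ 1 / 100 ≤ X 3 - X 1) ∧ 1 / 100 ≤ X 3 + X 1 ∨
      (1 / 100 ≤ X 1 ∧ 1 / 100 ≤ X 3) ∧ (101 / 100 ≤ sq4 X ∨ 1 / 100 ≤ X 3 - X 1)) : Chk X N := by
  refine ⟨hN ▸ one_pos, ?_, bd, by rw [la]; linarith, ?_⟩
  · rw [hN]
    generalize tv X N = t, sq4 X = r at tr bd
    have h1 : 64 * r ^ 2 + A ^ 2 * r ≤ 64 * A * -t := by linarith
    have h2 := pow_le_pow_left₀ (by positivity) h1 2
    refine le_of_mul_le_mul_left ?_ (show 0 < 256 * A ^ 2 by positivity)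
    nlinarith [sq_nonneg (64 * r ^ 2 - A ^ 2 * r)]
  · rcases cs with ⟨⟨a, b⟩, c⟩ | ⟨⟨a, b⟩, c | c⟩
    · exact .inr ⟨by rcases abs_cases (X 1) with e | e <;> linarith [e.1], a⟩
    · exact .inl ⟨a, b, c⟩
    · rcases le_total (101 / 100) (sq4 X) with d | d
      · exact .inl ⟨a, b, d⟩
      · exact .inr ⟨by rw [abs_of_pos (by linarith)]; linarith, by linarith⟩

/-- division by a function that is close to one -/
theorem nu_resc {A : Type*} [CommRing A] [Algebra ℝ A] {ν : Seminorm ℝ A}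
    (hm : ∀ a b, ν (a * b) ≤ ν a * ν b) {σ u : A} {δ : ℝ} (h : ν (σ - 1) ≤ δ) :
    ν u * (2 - (1 + δ) ^ 3) ≤ ν (σ ^ 3 * u) := by
  obtain ⟨w, rfl⟩ : ∃ w, σ = w + 1 := ⟨σ - 1, by ring⟩
  rw [add_sub_cancel_right] at h
  have p := apply_nonneg ν u
  have d := (apply_nonneg ν w).trans h
  have a1 := (hm w u).trans (mul_le_mul_of_nonneg_right h p)
  have a2 := (hm w (w * u)).trans (mul_le_mul h a1 (apply_nonneg _ _) d)
  have a3 := (hm w (w * (w * u))).trans (mul_le_mul h a2 (apply_nonneg _ _) d)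
  have e : u = (w + 1) ^ 3 * u - ((3 : ℝ) • (w * u) + (3 : ℝ) • (w * (w * u)) +
      w * (w * (w * u))) := by
    simp only [Algebra.smul_def, map_ofNat]; ring
  have b := (map_sub_le_add ν ((w + 1) ^ 3 * u) _).trans (add_le_add le_rfl
    ((map_add_le_add ν _ (w * (w * (w * u)))).trans (add_le_add
      (map_add_le_add ν ((3 : ℝ) • (w * u)) ((3 : ℝ) • (w * (w * u)))) le_rfl)))
  rw [← e, map_smul_eq_mul, map_smul_eq_mul, Real.norm_of_nonneg (by norm_num)] at b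
  nlinarith

variable {f : I4 → R} {h : Imm f}

/-- the gradient from the diagonal of the inverse metric -/
theorem Fm.Fr.gr_le (Φ : Fm.Fr h) (u : R) (x : P3) {b : I3 → I3 → ℝ} {s : I3 → ℝ} {γ : ℝ}
    (hs : ∀ a, Φ.p a (ch u) x = ∑ i, b i a * s i)
    (hb : ∀ i, ∑ a, ∑ c, b i a * b i c * (Φ.q ^ 2 * Fm.jA Φ.p (cf f) a c) x ≤ γ) :
    (wi h).vn ((dc h).gr u) (pr (up x)) ^ 2 ≤ γ * (∑ i, |s i|) ^ 2 := by
  obtain ⟨U, hU⟩ : ∃ U : I4 → I3 → ℝ, ∀ k i,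
    U k i = Φ.q x ^ 2 * ∑ a, Fm.jS Φ.p (cf f) k a x * b i a := ⟨_, fun _ _ => rfl⟩
  have h1 : ∀ k, (dc h).gr u k (pr (up x)) = ∑ i, U k i * s i := fun k => by
    have e := congrArg (fun v : C3 => v x) (Φ.ch_d k u)
    simp only [C3.mul_apply, C3.pow_apply, C3.add_apply, hs, Fin.sum_univ_three] at e
    refine e.trans ?_
    simp only [hU, Fin.sum_univ_three]
    ring
  have h2 : ∀ i, ∑ k, U k i ^ 2 ≤ γ := fun i => by
    refine le_of_eq_of_le ?_ (hb i)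
    have e := fun a c => congrArg (fun v : C3 => v x) (Fm.jS_sq Φ.p (cf f) a c)
    have q := congrArg (fun v : C3 => v x) Φ.qsq
    simp only [hU, C3.mul_apply, C3.pow_apply, C3.add_apply, C3.one_apply, Fin.sum_univ_three,
      Fin.sum_univ_four] at e q ⊢
    generalize b i 0 = u0, b i 1 = u1, b i 2 = u2
    linear_combination Φ.q x ^ 4 * (u0 * u0 * e 0 0 + u0 * u1 * e 0 1 + u0 * u2 * e 0 2 +
      u1 * u0 * e 1 0 + u1 * u1 * e 1 1 + u1 * u2 * e 1 2 + u2 * u0 * e 2 0 + u2 * u1 * e 2 1 +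
      u2 * u2 * e 2 2) + Φ.q x ^ 2 * (Fm.jA Φ.p (cf f) 0 0 x * u0 * u0 +
      Fm.jA Φ.p (cf f) 0 1 x * u0 * u1 + Fm.jA Φ.p (cf f) 0 2 x * u0 * u2 +
      Fm.jA Φ.p (cf f) 1 0 x * u1 * u0 + Fm.jA Φ.p (cf f) 1 1 x * u1 * u1 +
      Fm.jA Φ.p (cf f) 1 2 x * u1 * u2 + Fm.jA Φ.p (cf f) 2 0 x * u2 * u0 +
      Fm.jA Φ.p (cf f) 2 1 x * u2 * u1 + Fm.jA Φ.p (cf f) 2 2 x * u2 * u2) * q
  have h3 : ∀ i j, s i * s j * ∑ k, U k i * U k j ≤ |s i| * |s j| * γ := fun i j => by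
    refine (le_abs_self _).trans ?_
    rw [abs_mul, abs_mul]
    refine mul_le_mul_of_nonneg_left (abs_le_of_sq_le_sq' ?_ ?_ |> abs_le.2) (by positivity)
    · rw [sq γ]
      exact (sum_mul_sq_le_sq_mul_sq _ _ _).trans (mul_le_mul (h2 i) (h2 j)
        (sum_nonneg fun _ _ => sq_nonneg _) ((sum_nonneg fun _ _ => sq_nonneg _).trans (h2 i)))
    · exact (sum_nonneg fun _ _ => sq_nonneg _).trans (h2 i)
  rw [IS.vn, nr_sq]
  refine le_of_eq_of_le ?_ ((sum_le_sum fun i (_ : i ∈ univ) =>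
    sum_le_sum fun j (_ : j ∈ univ) => h3 i j).trans_eq ?_)
  · change ∑ k, (dc h).gr u k (pr (up x)) ^ 2 = _
    simp only [h1, Fin.sum_univ_three, Fin.sum_univ_four]
    ring
  · simp only [Fin.sum_univ_three]
    ring

theorem Fm.Fr.nn_sq (Φ : Fm.Fr h) (x : P3) : sq4 (fun k => (Φ.q * Fm.jN Φ.p (cf f) k) x) = 1 := by
  have e := congrArg (fun v : C3 => v x) (Fm.jN_sq Φ.p (cf f))
  have q := congrArg (fun v : C3 => v x) Φ.qsq
  simp only [sq4, C3.mul_apply, C3.pow_apply, C3.add_apply, C3.one_apply, Fin.sum_univ_four] at e q ⊢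
  linear_combination Φ.q x ^ 2 * e + q

theorem Fm.Fr.nn_perp (Φ : Fm.Fr h) (x : P3) (i : I3) :
    ∑ j, ch (E i (f j)) x * (Φ.q * Fm.jN Φ.p (cf f) j) x = 0 := by
  have e := Φ.E_perp i x
  simp only [C3.mul_apply, Fin.sum_univ_four] at e ⊢
  linear_combination Φ.q x * e

theorem Fm.Fr.resc (Φ : Fm.Fr h) (v : C3) :
    (v * (Φ.q * Fm.jD Φ.p (cf f))) ^ 3 * ch (dc h).R = v ^ 3 * Fm.jR Φ.p (cf f) := by
  have q := Φ.qsq
  rw [Φ.ch_R]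
  generalize Fm.jD Φ.p (cf f) = D at q ⊢
  linear_combination v ^ 3 * Fm.jR Φ.p (cf f) * ((Φ.q ^ 2 * D) ^ 2 + Φ.q ^ 2 * D + 1) * q

end Pool.Agent.MP_48470b_gt.Dic
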