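import Pool.Agent.MP_48470b_gt.Dic.Pt

/-! The weighted form of the pointwise hypotheses. -/

open Finset Matrix

noncomputable section

namespace Pool.Agent.MP_48470b_gt.Dic

open Pool.Agent.MP_48470b_gt.Sph Pool.Agent.MP48470b.An
open Pool.Agent.MP_48470b_gt.Gap (SP)

/-- the constants -/
structure Nw where
  α : ℝ
  a₁ : ℝ
  a₂ : ℝ
  ε₀ : ℝ
  ε₁ : ℝ
  e₂ : ℝ
  z₁ : ℝ
  z₂ : ℝ
  z₃ : ℝ
  d₁ : ℝ
  d₂ : ℝ
  d₃ : ℝ
  c₁ : ℝ
  c₂ : ℝ
  c₃ : ℝ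
  rm : ℝ
  x₁ : ℝ
  x₂ : ℝ
  y₁ : ℝ
  y₂ : ℝ
  v₁ : ℝ
  v₂ : ℝ
  εv : ℝ := 0

variable {f : I4 → R}

/-- the Gaussian factor -/
def eG (f : I4 → R) (x : S3) : ℝ := Real.exp (-1 / 4 * ∑ k, f k x ^ 2)

/-- the square of the tangential part of the Laplace operator of the position -/
def Lt (h : Imm f) (x : S3) : ℝ :=
  ∑ k, Lap (f k) x ^ 2 - (∑ k, (dc h).ν k x * Lap (f k) x) ^ 2

/-- the square of the induced metric -/
def gF (f : I4 → R) (x : S3) : ℝ := ∑ a, ∑ b, (∑ k, E a (f k) x * E b (f k) x) ^ 2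

/-- the inequalities for the derivatives of the shape operator -/
structure PtA (c : Nw) (h : Imm f) (x : S3) : Prop where
  hA' : (wi h).vn (uc3 (dc h).A') x ≤ c.a₁
  hA'' : (wi h).vn ((dc h).dT (uc3 (dc h).A')) x ≤ c.a₂
  hy : (wi h).vn (uc3 (dc h).A') x ^ 2 ≤ c.y₁ + c.y₂ * eG f x

/-- the inequalities for the residual -/
structure PtR (c : Nw) (h : Imm f) (x : S3) : Prop where
  r0 : rho h x * (dc h).R x ^ 2 ≤ c.ε₀ ^ 2
  r1 : rho h x * (wi h).vn ((dc h).gr (dc h).R) x ^ 2 ≤ c.ε₁ ^ 2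
  r2 : (wi h).vn ((dc h).dT ((dc h).gr (dc h).R)) x ≤ c.e₂
  rv : rho h x * (wi h).vn ((dc h).gr (dc h).R) x ^ 2 ≤ c.εv ^ 2 * eG f x

/-- the inequalities of order zero -/
structure PtZ (c : Nw) (h : Imm f) (x : S3) : Prop where
  hA : (wi h).vn (uc (dc h).A) x ≤ c.α
  s0 : 1 ≤ √(gram f x) * (c.z₁ + c.z₂ * eG f x)
  s1 : Lt h x ≤ √(gram f x) * (c.d₁ + c.d₂ * eG f x)
  s2 : gF f x ≤ √(gram f x) * (c.c₁ + c.c₂ * eG f x)
  t0 : 1 ≤ c.z₃ * √(gram f x)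
  t1 : Lt h x ≤ c.d₃ * √(gram f x)
  t2 : gF f x ≤ c.c₃ * √(gram f x)
  rm : ∑ k, f k x ^ 2 ≤ c.rm ^ 2
  hx : (wi h).vn (uc (dc h).A) x ^ 2 ≤ c.x₁ + c.x₂ * eG f x
  v1 : ((wi h).vn (uc (dc h).A) x ^ 2 + 1 / 2) ^ 2 ≤ c.v₁ ^ 2 * eG f x
  v2 : (wi h).vn (uc (dc h).A) x ^ 2 + 5 / 4 - (dc h).lam x ^ 2 / 8 ≤ c.v₂ * eG f x

variable {g : E4 ≃ₗᵢ[ℝ] E4} {c : Nw} {h : Imm f}

theorem sq_inv (he : Eqv f {g | SP g}) (hg : SP g) (x : S3) :
    ∑ k, f k (sph g x) ^ 2 = ∑ k, f k x ^ 2 := by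
  simpa only [R.sum_apply, R.pow_apply, ← sq] using inv_apply (Gap.dot_inv he he) hg x

theorem eG_inv (he : Eqv f {g | SP g}) (hg : SP g) (x : S3) : eG f (sph g x) = eG f x := by
  rw [eG, sq_inv he hg, eG]

theorem Lt_inv (he : Eqv f {g | SP g}) (hg : SP g) (x : S3) : Lt h (sph g x) = Lt h x := by
  have e2 := inv_apply (Gap.dot_inv (ν_eqv h he) (eqv_Lap he)) hg x
  simp only [R.sum_apply, R.mul_apply] at e2
  rw [Lt, sq_inv (eqv_Lap he) hg, e2, Lt]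

theorem gF_inv (he : Eqv f {g | SP g}) (hg : SP g) (x : S3) : gF f (sph g x) = gF f x := by
  rw [gF, met_sq, (se_met he hg).nr, ← met_sq, gF]

theorem SE.vn {ι : Type*} [Fintype ι] {v : ι → R} (H : SE g v) (x : S3) :
    (wi h).vn v (sph g x) = (wi h).vn v x := H.nr x

theorem PtA.inv (he : Eqv f {g | SP g}) (hg : SP g) {x : S3} (H : PtA c h (sph g x)) :
    PtA c h x := by
  have e1 : SE g (uc3 (dc h).A') := (se_A h he hg).dT h he hg
  obtain ⟨a, b, d⟩ := H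
  rw [e1.vn] at a d
  rw [(e1.dT h he hg).vn] at b
  rw [eG_inv he hg] at d
  exact ⟨a, b, d⟩

theorem PtR.inv (he : Eqv f {g | SP g}) (hg : SP g) {x : S3} (H : PtR c h (sph g x)) :
    PtR c h x := by
  have e1 := se_gr h he hg (R_inv h he)
  obtain ⟨a, b, d, e⟩ := H
  rw [inv_apply (rho_inv h he) hg] at a b e
  rw [inv_apply (R_inv h he) hg] at a
  rw [e1.vn] at b e
  rw [(e1.dT h he hg).vn] at d
  rw [eG_inv he hg] at e
  exact ⟨a, b, d, e⟩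

theorem PtZ.inv (he : Eqv f {g | SP g}) (hg : SP g) {x : S3} (H : PtZ c h (sph g x)) :
    PtZ c h x := by
  obtain ⟨a, s0, s1, s2, t0, t1, t2, rm, hx, v1, v2⟩ := H
  simp only [(se_A h he hg).vn, eG_inv he hg, Lt_inv he hg, gF_inv he hg, sq_inv he hg,
    act_gram (ev_iff.2 (he g hg)), inv_apply (Gap.lam_inv h he) hg] at *
  exact ⟨a, s0, s1, s2, t0, t1, t2, rm, hx, v1, v2⟩

/-- the inequalities at a point of the chart -/
structure Pt2 (c : Nw) (h : Imm f) (x : P3) : Prop where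
  a : PtA c h (pr (up x))
  r : PtR c h (pr (up x))
  z : PtZ c h (pr (up x))
  chk : ∃ N : I4 → ℝ, Emb.Chk (fun j => cf f j x) N ∧ ∀ i, ∑ j, ch (E i (f j)) x * N j = 0

/-- the inequalities on the sphere -/
structure All2 (c : Nw) (h : Imm f) : Prop where
  a : ∀ x, PtA c h x
  r : ∀ x, PtR c h x
  z : ∀ x, PtZ c h x
  chk : ∀ x : S3, Emb.Ch x → ∃ N : Fin 4 → ℝ, Emb.Chk (fun j => f j x) N ∧
    ∀ i, ∑ j, E i (f j) x * N j = 0

theorem all2_of_box (he : Eqv f {g | SP g}) (H : ∀ x, SC x → Pt2 c h x) : All2 c h := by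
  refine ⟨red (fun _ hg _ => PtA.inv he hg) fun x hx => (H x hx).a,
    red (fun _ hg _ => PtR.inv he hg) fun x hx => (H x hx).r,
    red (fun _ hg _ => PtZ.inv he hg) fun x hx => (H x hx).z, fun x hx => ?_⟩
  obtain ⟨c1, c2⟩ := sc_of_ch hx
  simpa only [cf, ch_dn _ c1] using (H _ c2).chk

theorem All2.res_lam (H : All2 c h) (e0 : 0 ≤ c.ε₀) (e1 : 0 ≤ c.ε₁) (h0 : 0 ≤ c.rm) :
    (wi h).I (((dc h).L (dc h).lam + (-1 : ℝ) • (dc h).lam) ^ 2) ≤ (c.ε₀ + c.rm * c.ε₁) ^ 2 :=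
  Gap.res_lam h (dom_of_pt h (s := (dc h).R ^ 2) e0 (fun x => by simp [IS.v0]) fun x => (H.r x).r0)
    (dom_of_pt h (s := ∑ i, (dc h).gr (dc h).R i ^ 2) e1 (fun x => ((wi h).vn_sq _ x).le) fun x =>
      (congrArg (rho h x * ·) ((wi h).vn_sq ((dc h).gr (dc h).R) x).symm).trans_le (H.r x).r1)
    h0 fun x => (H.z x).rm

/-- the derivatives of the shape operator from derivative norms in a frame -/
theorem PtA.of_num {x : P3} {Φ : Fm.Fr h} {κ m N₁ N₂ e : ℝ} (hκ : Φ.Kap x κ) (hm : Φ.m2 x ≤ m)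
    (h1 : nr (fun p : I3 × (I4 × I4) => Φ.p p.1 (ch (uc (dc h).A p.2)) x) ≤ N₁)
    (h2 : nr (fun p : I3 × (I3 × (I4 × I4)) =>
      Φ.p p.1 (Φ.p p.2.1 (ch (uc (dc h).A p.2.2))) x) ≤ N₂)
    (he : e ≤ eG f (pr (up x))) (y0 : 0 ≤ c.y₂)
    (n1 : κ * N₁ ≤ c.a₁) (n2 : κ ^ 2 * (N₂ + 2 * m * (κ * N₁)) ≤ c.a₂)
    (n3 : (κ * N₁) ^ 2 ≤ c.y₁ + c.y₂ * e) : PtA c h (pr (up x)) := by
  have a1 := hκ.d12 (uc (dc h).A) h1 h2 hm
  exact ⟨a1.1.trans n1, a1.2.trans n2, ((pow_le_pow_left₀ (nr_nonneg _) a1.1 2).trans n3).trans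
    (by gcongr)⟩

/-! ### the round operators in a frame -/

/-- the radial field in the frame -/
def eta (C : Matrix I3 I3 ℝ) (a : I3) : C3 := ∑ c, C a c • xi c

/-- the inverse round metric in the frame, divided by `ww` -/
def mm (C : Matrix I3 I3 ℝ) (a b : I3) : C3 :=
  algebraMap ℝ C3 (∑ c, C a c * C b c) + eta C a * eta C b

variable {p : I3 → Derivation ℝ C3 C3} {C : Matrix I3 I3 ℝ}

/-- the Laplace operator in the frame, divided by `ww` -/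
def lp (p : I3 → Derivation ℝ C3 C3) (C : Matrix I3 I3 ℝ) (u : C3) : C3 :=
  ∑ a, ∑ b, mm C a b * p a (p b u) + 2 * ∑ a, eta C a * p a u

theorem pd_of_inv {B C : Matrix I3 I3 ℝ} (h : B * C = 1) (c : I3) (u : C3) :
    pd c u = ∑ a, C a c • Fm.pb B a u := by
  have e := fun d => congrFun (congrFun h d) c
  have e1 : pd c u = ∑ d, (1 : Matrix I3 I3 ℝ) d c • pd d u := by simp [Matrix.one_apply]
  rw [e1]
  simp only [← e, Fm.pb_apply, Matrix.mul_apply, Fin.sum_univ_three]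
  module

theorem ch_Lap_fr (hC : ∀ c u, pd c u = ∑ a, C a c • p a u) (u : R) :
    ch (Lap u) = ww * lp p C (ch u) := by
  rw [ch_Lap, lp]
  simp only [hC, Fin.sum_univ_three, map_add, Derivation.map_smul]
  simp only [mm, eta, Fin.sum_univ_three, map_add, map_mul, Algebra.smul_def]
  ring

theorem ch_met_fr (hC : ∀ c u, pd c u = ∑ a, C a c • p a u) (u v : R) :
    ∑ a, ch (E a u) * ch (E a v) = ww * ∑ a, ∑ b, mm C a b * (p a (ch u) * p b (ch v)) := by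
  have e : ∑ a, ch (E a u) * ch (E a v) =
      ∑ a, ∑ c, (∑ b, ec b a * ec b c) * (pd a (ch u) * pd c (ch v)) := by
    simp only [ch_E, Fin.sum_univ_three]; ring
  rw [e]
  simp only [ec_gram]
  simp only [hC, mm, eta, Fin.sum_univ_three, map_add, map_mul, Algebra.smul_def,
    Fin.reduceEq, if_true, if_false]
  ring

theorem Lt_fr (hC : ∀ c u, pd c u = ∑ a, C a c • p a u) (x : P3) : Lt h (pr (up x)) = ww x ^ 2 *
    (∑ k, lp p C (cf f k) x ^ 2 - (∑ k, ch ((dc h).ν k) x * lp p C (cf f k) x) ^ 2) := by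
  have e : ∀ k, Lap (f k) (pr (up x)) = ww x * lp p C (cf f k) x := fun k =>
    congrArg (fun u : C3 => u x) (ch_Lap_fr hC (f k))
  simp only [Lt, e, ch_apply', Fin.sum_univ_four]
  ring

theorem gF_le (hC : ∀ c u, pd c u = ∑ a, C a c • p a u) (x : P3) : gF f (pr (up x)) ≤
    ww x ^ 2 * (∑ a, ∑ b, mm C a b x * Fm.jG p (cf f) a b x) ^ 2 := by
  have e := fun k => congrArg (fun u : C3 => u x) (ch_met_fr hC (f k) (f k))
  have h1 : ∑ a, ∑ k, E a (f k) (pr (up x)) ^ 2 =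
      ww x * ∑ a, ∑ b, mm C a b x * Fm.jG p (cf f) a b x := by
    simp only [C3.mul_apply, C3.add_apply, ch_apply', Fm.jG_apply, Fin.sum_univ_three,
      Fin.sum_univ_four, cf] at e ⊢
    linear_combination e 0 + e 1 + e 2 + e 3
  rw [← mul_pow, ← h1, sq, sum_mul_sum]
  exact sum_le_sum fun a _ => sum_le_sum fun b _ => sum_mul_sq_le_sq_mul_sq _ _ _

theorem gF_fr (hC : ∀ c u, pd c u = ∑ a, C a c • p a u) (x : P3) : gF f (pr (up x)) = ww x ^ 2 *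
    ∑ a, ∑ b, (∑ d, Fm.jG p (cf f) a d x * mm C d b x) * ∑ d, Fm.jG p (cf f) b d x * mm C d a x := by
  have e := fun k l => congrArg (fun u : C3 => u x) (ch_met_fr hC (f k) (f l))
  have s : ∀ a b, mm C a b x = mm C b a x := fun a b => by simp [mm, mul_comm]
  rw [gF, met_sq, nr_sq]
  simp only [C3.sum_apply, C3.mul_apply, ch_apply'] at e
  simp only [R.sum_apply, R.mul_apply, e]
  simp only [Fintype.sum_prod_type, Fm.jG_apply, C3.add_apply,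
    C3.mul_apply, cf, Fin.sum_univ_three, Fin.sum_univ_four, s 1 0, s 2 0, s 2 1]
  ring

theorem J_fr {B : Matrix I3 I3 ℝ} (hB : 0 < B.det) (x : P3) : √(gram f (pr (up x))) =
    ww x ^ 2 * (B.det⁻¹ * ((Fm.ofB h B hB).q x * Fm.jD (Fm.pb B) (cf f) x)) := by
  rw [← Fm.Jc_eq h hB]; exact Gap.ch_J h x

theorem rho_J (x : S3) : rho h x = √(gram f x) * eG f x := rho_apply h x

theorem AA_fr (Φ : Fm.Fr h) (x : P3) :
    (wi h).vn (uc (dc h).A) (pr (up x)) ^ 2 = Φ.q x ^ 6 * Fm.jQ Φ.p (cf f) x := by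
  have h2 := congrArg (fun u : C3 => u x) Φ.ch_AA
  rw [IS.vn, nr_sq]
  simpa [fp, sq, ch_apply'] using h2

end Pool.Agent.MP_48470b_gt.Dic
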