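import Pool.Agent.MP_48470b_gt.Dic.Jet

/-! The same dictionary for a frame of commuting derivations. -/

open Finset Matrix

noncomputable section

namespace Pool.Agent.MP_48470b_gt.Dic.Fm

open Pool.Agent.MP_48470b_gt.Sph Pool.Agent.MP48470b.An

section jets

variable {K : Type*} [CommRing K] [Algebra ℝ K] (p : I3 → Derivation ℝ K K) (F : I4 → K)

/-- tangent vectors -/
def jT : Matrix I4 I3 K := Matrix.of fun k a => p a (F k)
/-- metric -/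
def jG : Matrix I3 I3 K := (jT p F)ᵀ * jT p F
/-- determinant of the metric -/
def jD : K := (jG p F).det
/-- adjugate of the metric -/
def jA : Matrix I3 I3 K := adjugate (jG p F)
/-- normal vector -/
def jN : I4 → K := crs (jT p F)
/-- second fundamental form, not normalised -/
def jh (a b : I3) : K := ∑ k, p a (p b (F k)) * jN p F k
/-- support function, not normalised -/
def jl : K := ∑ k, F k * jN p F k
/-- mean curvature, not normalised -/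
def jH : K := ∑ a, ∑ b, jA p F a b * jh p F a b
/-- residual, not normalised -/
def jR : K := jH p F + hf K * jD p F * jl p F
/-- square of the second fundamental form, not normalised -/
def jQ : K := ∑ a, ∑ b, ∑ c, ∑ d, jA p F a c * jA p F b d * jh p F a b * jh p F c d
/-- dual vectors, not normalised -/
def jS : Matrix I4 I3 K := jT p F * jA p F
/-- drift vector, not normalised -/
def jZ (k : I4) : K := ∑ a, ∑ b, jA p F a b * p a (p b (F k)) + hf K * jD p F * F k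

theorem jT_apply (k : I4) (a : I3) : jT p F k a = p a (F k) := rfl

theorem jG_apply (a b : I3) : jG p F a b = ∑ k, p a (F k) * p b (F k) := rfl

theorem jS_apply (i : I4) (a : I3) : jS p F i a = ∑ b, p b (F i) * jA p F b a := rfl

theorem jG_symm : (jG p F)ᵀ = jG p F := by simp [jG]

theorem jA_symm (a b : I3) : jA p F a b = jA p F b a := by
  have h : (jA p F)ᵀ = jA p F := by rw [jA, adjugate_transpose, jG_symm]
  exact (congrFun (congrFun h a) b).symm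

theorem jh_symm (hp : ∀ a b u, p a (p b u) = p b (p a u)) (a b : I3) : jh p F a b = jh p F b a :=
  sum_congr rfl fun k _ => by rw [hp]

theorem jN_sq : ∑ k, jN p F k * jN p F k = jD p F := crs_sq _

theorem jN_perp (a : I3) : ∑ k, jN p F k * p a (F k) = 0 := crs_perp _ a

theorem jR_eq : jR p F = ∑ k, jZ p F k * jN p F k := by
  simp only [jR, jH, jh, jl, jZ, Fin.sum_univ_three, Fin.sum_univ_four]; ring

theorem j_proj (i j : I4) : ∑ a, jS p F i a * p a (F j) + jN p F i * jN p F j =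
    jD p F * (1 : Matrix I4 I4 K) i j := crs_proj (jT p F) i j

theorem j_split (v : I4 → K) (i : I4) : jD p F * v i =
    jN p F i * ∑ k, jN p F k * v k + ∑ a, jS p F i a * ∑ k, p a (F k) * v k := by
  have h : ∑ k, (1 : Matrix I4 I4 K) i k * v k = v i := by simp [Matrix.one_apply]
  have h1 := j_proj p F i
  rw [← h]
  simp only [Fin.sum_univ_four, Fin.sum_univ_three] at h1 ⊢
  linear_combination -v 0 * h1 0 - v 1 * h1 1 - v 2 * h1 2 - v 3 * h1 3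

theorem jS_sq (a b : I3) : ∑ i, jS p F i a * jS p F i b = jD p F * jA p F a b := by
  have h : (jS p F)ᵀ * jS p F = jD p F • jA p F := by
    have h1 : (jA p F)ᵀ = jA p F := by rw [jA, adjugate_transpose, jG_symm]
    rw [jS, transpose_mul, h1, Matrix.mul_assoc, ← Matrix.mul_assoc (jT p F)ᵀ]
    change jA p F * (jG p F * adjugate (jG p F)) = _
    rw [mul_adjugate, Matrix.mul_smul, mul_one]; rfl
  exact congrFun (congrFun h a) b

end jets

variable {f : I4 → R}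

/-- a frame in the chart with the normalising factor -/
structure Fr (h : Imm f) where
  p : I3 → Derivation ℝ C3 C3
  q : C3
  comm : ∀ a b u, p a (p b u) = p b (p a u)
  chain : ∀ a u, p a (ch u) = ∑ k, p a (cf f k) * ch ((dc h).d k u)
  pos : ∀ x, 0 < q x
  qsq : q ^ 2 * jD p (cf f) = 1
  nu : ∀ i, ch ((dc h).ν i) = -(q * jN p (cf f) i)

/-- the coordinate frame -/
def std (h : Imm f) : Fr h := ⟨pd, jq h, pd_comm, pd_chain h, jq_pos h, jq_sq h, ch_nu h⟩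

/-- a constant recombination of the coordinate frame -/
def pb (B : Matrix I3 I3 ℝ) (a : I3) : Derivation ℝ C3 C3 := ∑ c, B c a • pd c

theorem pb_apply (B : Matrix I3 I3 ℝ) (a : I3) (u : C3) : pb B a u = ∑ c, B c a • pd c u := by
  simp [pb, Fin.sum_univ_three]

theorem pb_xi (B : Matrix I3 I3 ℝ) (a b : I3) : pb B a (xi b) = algebraMap ℝ C3 (B b a) := by
  fin_cases b <;> simp [pb_apply, pd_xi, Algebra.algebraMap_eq_smul_one]

theorem pb_comm (B : Matrix I3 I3 ℝ) (a b : I3) (u : C3) : pb B a (pb B b u) = pb B b (pb B a u) := by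
  simp only [pb_apply, Fin.sum_univ_three, map_add, Derivation.map_smul, pd_comm 1 0, pd_comm 2 0,
    pd_comm 2 1]
  module

theorem jT_pb (B : Matrix I3 I3 ℝ) (F : I4 → C3) :
    jT (pb B) F = jT pd F * B.map (algebraMap ℝ C3) := by
  refine Matrix.ext fun k a => ?_
  simp [jT, pb_apply, Matrix.mul_apply, Algebra.smul_def, mul_comm]

theorem det_map (B : Matrix I3 I3 ℝ) : (B.map (algebraMap ℝ C3)).det = algebraMap ℝ C3 B.det :=
  ((algebraMap ℝ C3).map_det B).symm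

theorem jN_pb (B : Matrix I3 I3 ℝ) (F : I4 → C3) (i : I4) :
    jN (pb B) F i = B.det • jN pd F i := by
  rw [jN, jT_pb, crs_mul, det_map, Algebra.smul_def]; rfl

theorem jD_pb (B : Matrix I3 I3 ℝ) (F : I4 → C3) : jD (pb B) F = B.det ^ 2 • jD pd F := by
  rw [← jN_sq, ← jN_sq, smul_sum]
  exact sum_congr rfl fun k _ => by rw [jN_pb, smul_mul_smul_comm, sq]

theorem jG_pb (B : Matrix I3 I3 ℝ) (F : I4 → C3) (a b : I3) :
    jG (pb B) F a b = ∑ c, ∑ d, (B c a * B d b) • jG pd F c d := by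
  simp only [jG_apply, pb_apply, Fin.sum_univ_three, Fin.sum_univ_four, Algebra.smul_def, map_mul]
  ring

/-- the recombined frame -/
def ofB (h : Imm f) (B : Matrix I3 I3 ℝ) (hB : 0 < B.det) : Fr h where
  p := pb B
  q := B.det⁻¹ • jq h
  comm := pb_comm B
  chain a u := by
    simp only [pb_apply, pd_chain h _ u, Fin.sum_univ_three, Fin.sum_univ_four, Algebra.smul_def]
    ring
  pos x := mul_pos (inv_pos.2 hB) (jq_pos h x)
  qsq := by
    rw [jD_pb, smul_pow, smul_mul_smul_comm, ← mul_pow, inv_mul_cancel₀ hB.ne', one_pow, one_smul]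
    exact jq_sq h
  nu i := by
    rw [jN_pb, smul_mul_smul_comm, inv_mul_cancel₀ hB.ne', one_smul]
    exact ch_nu h i

theorem ofB_p (h : Imm f) (B : Matrix I3 I3 ℝ) (hB : 0 < B.det) : (ofB h B hB).p = pb B := rfl

theorem ofB_q (h : Imm f) (B : Matrix I3 I3 ℝ) (hB : 0 < B.det) :
    (ofB h B hB).q = B.det⁻¹ • jq h := rfl

theorem jq_eq (h : Imm f) (B : Matrix I3 I3 ℝ) (hB : 0 < B.det) :
    jq h = B.det • (ofB h B hB).q := by
  rw [ofB_q, smul_smul, mul_inv_cancel₀ hB.ne', one_smul]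

namespace Fr

variable {h : Imm f} (Φ : Fr h)

theorem jD_pos (x : P3) : 0 < jD Φ.p (cf f) x := by
  have h1 := congrArg (fun u : C3 => u x) (Φ.qsq)
  simp only [C3.mul_apply, C3.pow_apply, C3.one_apply] at h1
  exact pos_of_mul_pos_right (h1 ▸ one_pos) (sq_nonneg _)

theorem q_apply (x : P3) : Φ.q x = (√(jD Φ.p (cf f) x))⁻¹ := by
  have h1 := congrArg (fun u : C3 => u x) (Φ.qsq)
  simp only [C3.mul_apply, C3.pow_apply, C3.one_apply] at h1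
  have h2 := Φ.pos x
  have h3 : jD Φ.p (cf f) x = (Φ.q x)⁻¹ ^ 2 := by field_simp; linarith
  rw [h3, Real.sqrt_sq (by positivity), inv_inv]

theorem p_q (a : I3) : Φ.p a (Φ.q) = -(hf C3 * Φ.q ^ 3 * Φ.p a (jD Φ.p (cf f))) := by
  have h1 := Φ.qsq
  have h2 := congrArg (Φ.p a) h1
  have h3 := two_hf C3
  simp only [sq, Derivation.leibniz, smul_eq_mul, Derivation.map_one_eq_zero] at h2
  linear_combination hf C3 * Φ.q * h2 - Φ.p a (Φ.q) * h3 - 2 * hf C3 * Φ.p a (Φ.q) * h1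

theorem jN_d (u : R) : ∑ k, jN Φ.p (cf f) k * ch ((dc h).d k u) = 0 := by
  have h1 := congrArg ch ((dc h).nd u)
  have h2 := Φ.qsq
  simp only [map_zero, map_add, map_mul, Φ.nu, Fin.sum_univ_four] at h1 ⊢
  linear_combination -(Φ.q * jD Φ.p (cf f)) * h1 - (jN Φ.p (cf f) 0 * ch ((dc h).d 0 u) +
    jN Φ.p (cf f) 1 * ch ((dc h).d 1 u) + jN Φ.p (cf f) 2 * ch ((dc h).d 2 u) +
    jN Φ.p (cf f) 3 * ch ((dc h).d 3 u)) * h2

theorem q_split (v : I4 → C3) (i : I4) : v i = Φ.q ^ 2 *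
    (jN Φ.p (cf f) i * ∑ k, jN Φ.p (cf f) k * v k + ∑ a, jS Φ.p (cf f) i a * ∑ k, Φ.p a (cf f k) * v k) := by
  rw [← j_split]; linear_combination -v i * Φ.qsq

/-- the tangential derivative -/
theorem ch_d (i : I4) (u : R) :
    ch ((dc h).d i u) = Φ.q ^ 2 * ∑ a, jS Φ.p (cf f) i a * Φ.p a (ch u) := by
  rw [Φ.q_split (fun k => ch ((dc h).d k u)) i, Φ.jN_d, mul_zero, zero_add]
  simp only [← Φ.chain]

theorem ch_grad (u v : R) : ∑ i, ch ((dc h).d i u) * ch ((dc h).d i v) =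
    Φ.q ^ 2 * ∑ a, ∑ b, jA Φ.p (cf f) a b * Φ.p a (ch u) * Φ.p b (ch v) := by
  have h1 := jS_sq Φ.p (cf f)
  have h2 := Φ.qsq
  simp only [Φ.ch_d, Fin.sum_univ_three, Fin.sum_univ_four] at h1 ⊢
  generalize Φ.p 0 (ch u) = u0, Φ.p 1 (ch u) = u1, Φ.p 2 (ch u) = u2, Φ.p 0 (ch v) = v0,
    Φ.p 1 (ch v) = v1, Φ.p 2 (ch v) = v2
  linear_combination Φ.q ^ 4 * (u0 * v0 * h1 0 0 + u0 * v1 * h1 0 1 + u0 * v2 * h1 0 2 +
    u1 * v0 * h1 1 0 + u1 * v1 * h1 1 1 + u1 * v2 * h1 1 2 + u2 * v0 * h1 2 0 + u2 * v1 * h1 2 1 +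
    u2 * v2 * h1 2 2) + Φ.q ^ 2 * (jA Φ.p (cf f) 0 0 * u0 * v0 + jA Φ.p (cf f) 0 1 * u0 * v1 +
    jA Φ.p (cf f) 0 2 * u0 * v2 + jA Φ.p (cf f) 1 0 * u1 * v0 + jA Φ.p (cf f) 1 1 * u1 * v1 +
    jA Φ.p (cf f) 1 2 * u1 * v2 + jA Φ.p (cf f) 2 0 * u2 * v0 + jA Φ.p (cf f) 2 1 * u2 * v1 +
    jA Φ.p (cf f) 2 2 * u2 * v2) * h2

/-- the Weingarten equations -/
theorem pd_nu (a : I3) (j : I4) :
    Φ.p a (ch ((dc h).ν j)) = Φ.q ^ 3 * ∑ b, jS Φ.p (cf f) j b * jh Φ.p (cf f) a b := by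
  have h1 := congrArg (fun u => Φ.p a (ch u)) (dc h).nn
  have h2 : ∀ b, ∑ k, Φ.p b (cf f k) * Φ.p a (ch ((dc h).ν k)) = Φ.q * jh Φ.p (cf f) a b := by
    intro b
    have h3 : ∑ k, ch ((dc h).ν k) * Φ.p b (cf f k) = 0 := by
      have h4 := jN_perp Φ.p (cf f) b
      simp only [Φ.nu, Fin.sum_univ_four] at h4 ⊢
      linear_combination -Φ.q * h4
    have h4 := congrArg (Φ.p a) h3
    simp only [Fin.sum_univ_four, map_add, Derivation.leibniz, smul_eq_mul, map_zero] at h4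
    simp only [jh, Fin.sum_univ_four]
    linear_combination h4 - Φ.p a (Φ.p b (cf f 0)) * Φ.nu 0 - Φ.p a (Φ.p b (cf f 1)) * Φ.nu 1
      - Φ.p a (Φ.p b (cf f 2)) * Φ.nu 2 - Φ.p a (Φ.p b (cf f 3)) * Φ.nu 3
  have h5 : Φ.q * ∑ k, jN Φ.p (cf f) k * Φ.p a (ch ((dc h).ν k)) = 0 := by
    simp only [Fin.sum_univ_four, map_add, map_mul, Derivation.leibniz, smul_eq_mul, map_one,
      Derivation.map_one_eq_zero] at h1 ⊢
    have h6 := two_hf C3
    linear_combination -hf C3 * h1 + Φ.p a (ch ((dc h).ν 0)) * Φ.nu 0 +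
      Φ.p a (ch ((dc h).ν 1)) * Φ.nu 1 + Φ.p a (ch ((dc h).ν 2)) * Φ.nu 2 +
      Φ.p a (ch ((dc h).ν 3)) * Φ.nu 3 + (ch ((dc h).ν 0) * Φ.p a (ch ((dc h).ν 0)) +
      ch ((dc h).ν 1) * Φ.p a (ch ((dc h).ν 1)) + ch ((dc h).ν 2) * Φ.p a (ch ((dc h).ν 2)) +
      ch ((dc h).ν 3) * Φ.p a (ch ((dc h).ν 3))) * h6
  rw [Φ.q_split (fun k => Φ.p a (ch ((dc h).ν k))) j]
  simp only [h2, Fin.sum_univ_three]
  linear_combination Φ.q * jN Φ.p (cf f) j * h5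

/-- the shape operator -/
theorem ch_A (i j : I4) : ch ((dc h).A i j) =
    Φ.q ^ 5 * ∑ a, ∑ b, jS Φ.p (cf f) i a * jS Φ.p (cf f) j b * jh Φ.p (cf f) a b := by
  rw [DC.A_apply, Φ.ch_d]
  simp only [Φ.pd_nu, Fin.sum_univ_three]
  ring

theorem ch_H : ch (dc h).H = Φ.q ^ 3 * jH Φ.p (cf f) := by
  have h1 := jS_sq Φ.p (cf f)
  have h2 := Φ.qsq
  have h3 : (dc h).H = ∑ i, (dc h).A i i := rfl
  simp only [h3, map_add, Φ.ch_A, jH, Fin.sum_univ_three, Fin.sum_univ_four] at h1 ⊢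
  generalize jh Φ.p (cf f) = t
  linear_combination Φ.q ^ 5 * (t 0 0 * h1 0 0 + t 0 1 * h1 0 1 + t 0 2 * h1 0 2 +
    t 1 0 * h1 1 0 + t 1 1 * h1 1 1 + t 1 2 * h1 1 2 + t 2 0 * h1 2 0 + t 2 1 * h1 2 1 +
    t 2 2 * h1 2 2) + Φ.q ^ 3 * (jA Φ.p (cf f) 0 0 * t 0 0 + jA Φ.p (cf f) 0 1 * t 0 1 +
    jA Φ.p (cf f) 0 2 * t 0 2 + jA Φ.p (cf f) 1 0 * t 1 0 + jA Φ.p (cf f) 1 1 * t 1 1 +
    jA Φ.p (cf f) 1 2 * t 1 2 + jA Φ.p (cf f) 2 0 * t 2 0 + jA Φ.p (cf f) 2 1 * t 2 1 +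
    jA Φ.p (cf f) 2 2 * t 2 2) * h2

theorem ch_lam : ch (dc h).lam = -(Φ.q * jl Φ.p (cf f)) := by
  simp only [DC.lam, dc_f, map_add, map_mul, Φ.nu, jl, cf, Fin.sum_univ_four]
  ring

/-- the residual -/
theorem ch_R : ch (dc h).R = Φ.q ^ 3 * jR Φ.p (cf f) := by
  rw [DC.R, map_sub, map_mul, Φ.ch_H, Φ.ch_lam, ch_hf, jR]
  linear_combination -(hf C3 * Φ.q * jl Φ.p (cf f)) * Φ.qsq

/-- the square of the shape operator -/
theorem ch_AA : ch (fp (dc h).A (dc h).A) = Φ.q ^ 6 * jQ Φ.p (cf f) := by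
  have h1 : fp (dc h).A (dc h).A = ∑ j, ∑ i, (dc h).d i ((dc h).ν j) * (dc h).d i ((dc h).ν j) := by
    rw [DC.fp_eq, sum_comm]; rfl
  have h2 := Φ.qsq
  have h3 : ∀ a c, ∑ j, Φ.p a (ch ((dc h).ν j)) * Φ.p c (ch ((dc h).ν j)) =
      Φ.q ^ 4 * ∑ b, ∑ d, jA Φ.p (cf f) b d * jh Φ.p (cf f) a b * jh Φ.p (cf f) c d := by
    intro a c
    have h4 := jS_sq Φ.p (cf f)
    simp only [Φ.pd_nu, Fin.sum_univ_three, Fin.sum_univ_four] at h4 ⊢
    generalize jh Φ.p (cf f) a = u, jh Φ.p (cf f) c = v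
    linear_combination Φ.q ^ 6 * (u 0 * v 0 * h4 0 0 + u 0 * v 1 * h4 0 1 + u 0 * v 2 * h4 0 2 +
      u 1 * v 0 * h4 1 0 + u 1 * v 1 * h4 1 1 + u 1 * v 2 * h4 1 2 + u 2 * v 0 * h4 2 0 +
      u 2 * v 1 * h4 2 1 + u 2 * v 2 * h4 2 2) + Φ.q ^ 4 * (jA Φ.p (cf f) 0 0 * u 0 * v 0 +
      jA Φ.p (cf f) 0 1 * u 0 * v 1 + jA Φ.p (cf f) 0 2 * u 0 * v 2 + jA Φ.p (cf f) 1 0 * u 1 * v 0 +
      jA Φ.p (cf f) 1 1 * u 1 * v 1 + jA Φ.p (cf f) 1 2 * u 1 * v 2 + jA Φ.p (cf f) 2 0 * u 2 * v 0 +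
      jA Φ.p (cf f) 2 1 * u 2 * v 1 + jA Φ.p (cf f) 2 2 * u 2 * v 2) * h2
  rw [h1]
  simp only [map_sum, map_mul, Φ.ch_grad]
  have h5 : ∑ j, Φ.q ^ 2 * ∑ a, ∑ c, jA Φ.p (cf f) a c * Φ.p a (ch ((dc h).ν j)) *
      Φ.p c (ch ((dc h).ν j)) = Φ.q ^ 2 * ∑ a, ∑ c, jA Φ.p (cf f) a c *
      ∑ j, Φ.p a (ch ((dc h).ν j)) * Φ.p c (ch ((dc h).ν j)) := by
    simp only [Fin.sum_univ_three, Fin.sum_univ_four]; ring
  rw [h5]
  simp only [h3, jQ, Fin.sum_univ_three]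
  ring

/-- the Laplace operator of the hypersurface -/
theorem ch_lap (u : R) : ch ((dc h).lap u) = Φ.q ^ 2 * ∑ a, ∑ b, jA Φ.p (cf f) a b *
    (Φ.p a (Φ.p b (ch u)) - ∑ k, Φ.p a (Φ.p b (cf f k)) * ch ((dc h).d k u)) := by
  have h1 : ∀ a b, Φ.p a (Φ.p b (ch u)) - ∑ k, Φ.p a (Φ.p b (cf f k)) * ch ((dc h).d k u) =
      ∑ k, Φ.p b (cf f k) * Φ.p a (ch ((dc h).d k u)) := by
    intro a b
    rw [Φ.chain b u]
    simp only [Fin.sum_univ_four, map_add, Derivation.leibniz, smul_eq_mul]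
    ring
  have h2 : ∀ i, ch ((dc h).d i ((dc h).d i u)) =
      Φ.q ^ 2 * ∑ a, jS Φ.p (cf f) i a * Φ.p a (ch ((dc h).d i u)) := fun i => Φ.ch_d i _
  simp only [DC.lap, map_sum, h1, h2, jS_apply]
  simp only [Fin.sum_univ_three, Fin.sum_univ_four, jA_symm Φ.p (cf f) 1 0, jA_symm Φ.p (cf f) 2 0,
    jA_symm Φ.p (cf f) 2 1]
  ring

/-- the drift Laplace operator -/
theorem ch_lf (u : R) : ch ((dc h).lf u) = Φ.q ^ 2 *
    (∑ a, ∑ b, jA Φ.p (cf f) a b * Φ.p a (Φ.p b (ch u)) - ∑ k, jZ Φ.p (cf f) k * ch ((dc h).d k u)) := by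
  have h2 := Φ.qsq
  rw [DC.lf, map_sub, Φ.ch_lap, map_mul, ch_hf]
  have e : ∀ k, ch (f k) = cf f k := fun _ => rfl
  simp only [dc_f, map_add, map_mul, jZ, Fin.sum_univ_three, Fin.sum_univ_four, e]
  linear_combination (hf C3 * (cf f 0 * ch ((dc h).d 0 u) + cf f 1 * ch ((dc h).d 1 u) +
    cf f 2 * ch ((dc h).d 2 u) + cf f 3 * ch ((dc h).d 3 u))) * h2

/-- the stability operator -/
theorem ch_L (u : R) : ch ((dc h).L u) =
    Φ.q ^ 2 * ∑ a, ∑ b, jA Φ.p (cf f) a b * Φ.p a (Φ.p b (ch u))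
      - Φ.q ^ 4 * ∑ c, (∑ k, jZ Φ.p (cf f) k * jS Φ.p (cf f) k c) * Φ.p c (ch u)
      + (Φ.q ^ 6 * jQ Φ.p (cf f) + hf C3) * ch u := by
  rw [DC.L, map_add, map_mul, Φ.ch_lf, DC.V, map_add, Φ.ch_AA, ch_hf]
  simp only [Φ.ch_d, Fin.sum_univ_three, Fin.sum_univ_four]
  ring

end Fr

end Pool.Agent.MP_48470b_gt.Dic.Fm
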