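import Pool.Agent.MP_48470b_gt.Dic.JetB

/-! Bounds for tangential derivatives from bounds for derivatives in the chart. -/

open Finset Matrix

noncomputable section

namespace Pool.Agent.MP_48470b_gt.Dic.Fm

open Pool.Agent.MP_48470b_gt.Sph Pool.Agent.MP48470b.An

theorem nr_le_sum_abs {ι : Type*} [Fintype ι] (v : ι → ℝ) : nr v ≤ ∑ i, |v i| := by
  refine nr_le_of_sq (sum_nonneg fun _ _ => abs_nonneg _) ?_
  rw [sq, sum_mul]
  refine sum_le_sum fun i _ => ?_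
  rw [← sq_abs, sq]
  exact mul_le_mul_of_nonneg_left (single_le_sum (f := fun i => |v i|) (fun _ _ => abs_nonneg _)
    (mem_univ i)) (abs_nonneg _)

theorem nr_le_card {ι : Type*} [Fintype ι] {v : ι → ℝ} {c m : ℝ} (h : ∀ i, |v i| ≤ c)
    (hm : 0 ≤ m) (hc : (Fintype.card ι : ℝ) * c ^ 2 ≤ m ^ 2) : nr v ≤ m := by
  refine nr_le_of_sq hm (le_trans ?_ hc)
  have h1 : ∑ i, v i ^ 2 ≤ ∑ _i : ι, c ^ 2 := sum_le_sum fun i _ =>
    sq_le_sq' (abs_le.1 (h i)).1 (abs_le.1 (h i)).2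
  simpa using h1

variable {f : I4 → R}

namespace Fr

variable {h : Imm f} (Φ : Fr h)

/-- `κ²` bounds the inverse metric at `x` -/
def Kap (x : P3) (κ : ℝ) : Prop := 0 ≤ κ ∧ ∀ s : I3 → ℝ,
  Φ.q x ^ 2 * ∑ a, ∑ b, jA Φ.p (cf f) a b x * s a * s b ≤ κ ^ 2 * ∑ a, s a ^ 2

theorem kap_of_row {x : P3} {κ : ℝ} (h0 : 0 ≤ κ)
    (hr : ∀ a, ∑ b, |Φ.q x ^ 2 * jA Φ.p (cf f) a b x| ≤ κ ^ 2) : Φ.Kap x κ := by
  refine ⟨h0, fun s => ?_⟩
  have s10 : jA Φ.p (cf f) 1 0 x = jA Φ.p (cf f) 0 1 x := by rw [jA_symm]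
  have s20 : jA Φ.p (cf f) 2 0 x = jA Φ.p (cf f) 0 2 x := by rw [jA_symm]
  have s21 : jA Φ.p (cf f) 2 1 x = jA Φ.p (cf f) 1 2 x := by rw [jA_symm]
  have r0 := hr 0
  have r1 := hr 1
  have r2 := hr 2
  have key : ∀ m u v : ℝ, 2 * m * u * v ≤ |m| * (u ^ 2 + v ^ 2) := fun m u v => by
    rcases abs_cases m with ⟨e, e'⟩ | ⟨e, e'⟩ <;> rw [e]
    · nlinarith [mul_nonneg e' (sq_nonneg (u - v))]
    · nlinarith [mul_nonneg (neg_nonneg.2 e'.le) (sq_nonneg (u + v))]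
  simp only [Fin.sum_univ_three, s10, s20, s21] at r0 r1 r2 ⊢
  have k01 := key (Φ.q x ^ 2 * jA Φ.p (cf f) 0 1 x) (s 0) (s 1)
  have k02 := key (Φ.q x ^ 2 * jA Φ.p (cf f) 0 2 x) (s 0) (s 2)
  have k12 := key (Φ.q x ^ 2 * jA Φ.p (cf f) 1 2 x) (s 1) (s 2)
  have k0 := mul_le_mul_of_nonneg_right (le_abs_self (Φ.q x ^ 2 * jA Φ.p (cf f) 0 0 x))
    (sq_nonneg (s 0))
  have k1 := mul_le_mul_of_nonneg_right (le_abs_self (Φ.q x ^ 2 * jA Φ.p (cf f) 1 1 x))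
    (sq_nonneg (s 1))
  have k2 := mul_le_mul_of_nonneg_right (le_abs_self (Φ.q x ^ 2 * jA Φ.p (cf f) 2 2 x))
    (sq_nonneg (s 2))
  have m0 := mul_le_mul_of_nonneg_right r0 (sq_nonneg (s 0))
  have m1 := mul_le_mul_of_nonneg_right r1 (sq_nonneg (s 1))
  have m2 := mul_le_mul_of_nonneg_right r2 (sq_nonneg (s 2))
  nlinarith

theorem kap_of_trace {x : P3} {κ : ℝ} (h0 : 0 ≤ κ)
    (ht : Φ.q x ^ 2 * ∑ a, jA Φ.p (cf f) a a x ≤ κ ^ 2) : Φ.Kap x κ := by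
  refine ⟨h0, fun s => ?_⟩
  have h1 : ∀ a b, ∑ i, jS Φ.p (cf f) i a x * jS Φ.p (cf f) i b x =
      jD Φ.p (cf f) x * jA Φ.p (cf f) a b x := fun a b => by
    simpa using congrArg (fun u : C3 => u x) (jS_sq Φ.p (cf f) a b)
  have h2 : Φ.q x ^ 2 * jD Φ.p (cf f) x = 1 := by
    simpa using congrArg (fun u : C3 => u x) Φ.qsq
  have h3 : ∑ i, (∑ a, jS Φ.p (cf f) i a x * s a) ^ 2 ≤
      ∑ i, (∑ a, jS Φ.p (cf f) i a x ^ 2) * ∑ a, s a ^ 2 :=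
    sum_le_sum fun i _ => sum_mul_sq_le_sq_mul_sq _ _ _
  have h4 : ∑ i, (∑ a, jS Φ.p (cf f) i a x * s a) ^ 2 =
      jD Φ.p (cf f) x * ∑ a, ∑ b, jA Φ.p (cf f) a b x * s a * s b := by
    simp only [Fin.sum_univ_three, Fin.sum_univ_four] at h1 ⊢
    linear_combination s 0 * s 0 * h1 0 0 + s 0 * s 1 * h1 0 1 + s 0 * s 2 * h1 0 2 +
      s 1 * s 0 * h1 1 0 + s 1 * s 1 * h1 1 1 + s 1 * s 2 * h1 1 2 + s 2 * s 0 * h1 2 0 +
      s 2 * s 1 * h1 2 1 + s 2 * s 2 * h1 2 2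
  have h5 : ∑ i, (∑ a, jS Φ.p (cf f) i a x ^ 2) * ∑ a, s a ^ 2 =
      jD Φ.p (cf f) x * ((∑ a, jA Φ.p (cf f) a a x) * ∑ a, s a ^ 2) := by
    simp only [Fin.sum_univ_three, Fin.sum_univ_four] at h1 ⊢
    linear_combination (s 0 ^ 2 + s 1 ^ 2 + s 2 ^ 2) * (h1 0 0 + h1 1 1 + h1 2 2)
  rw [h4, h5] at h3
  have h6 := le_of_mul_le_mul_left h3 (Φ.jD_pos x)
  have h7 : 0 ≤ ∑ a, s a ^ 2 := sum_nonneg fun _ _ => sq_nonneg _
  calc _ ≤ Φ.q x ^ 2 * ((∑ a, jA Φ.p (cf f) a a x) * ∑ a, s a ^ 2) := by gcongr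
    _ ≤ _ := by rw [← mul_assoc]; gcongr

theorem sq_split (x : P3) (w : I4 → ℝ) : ∑ i, w i ^ 2 =
    Φ.q x ^ 2 * ∑ a, ∑ b, jA Φ.p (cf f) a b x * (∑ i, Φ.p a (cf f i) x * w i) *
      (∑ i, Φ.p b (cf f i) x * w i) + (∑ i, ch ((dc h).ν i) x * w i) ^ 2 := by
  have h1 := fun i => congrArg (fun u : C3 => u x)
    (Φ.q_split (fun k => algebraMap ℝ C3 (w k)) i)
  have s10 : jA Φ.p (cf f) 1 0 x = jA Φ.p (cf f) 0 1 x := by rw [jA_symm]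
  have s20 : jA Φ.p (cf f) 2 0 x = jA Φ.p (cf f) 0 2 x := by rw [jA_symm]
  have s21 : jA Φ.p (cf f) 2 1 x = jA Φ.p (cf f) 1 2 x := by rw [jA_symm]
  simp only [Φ.nu, jS_apply, C3.algebraMap_apply, C3.mul_apply, C3.add_apply, C3.pow_apply,
    C3.neg_apply, Fin.sum_univ_three, Fin.sum_univ_four, s10, s20, s21] at h1 ⊢
  linear_combination w 0 * h1 0 + w 1 * h1 1 + w 2 * h1 2 + w 3 * h1 3

variable {Φ} {x : P3} {κ : ℝ} {ι : Type*} [Fintype ι]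

theorem Kap.split (hκ : Φ.Kap x κ) (w : I4 × ι → ℝ) :
    nr w ≤ κ * nr (fun p : I3 × ι => ∑ i, Φ.p p.1 (cf f i) x * w (i, p.2)) +
      nr (fun j : ι => ∑ i, ch ((dc h).ν i) x * w (i, j)) := by
  have h0 := hκ.1
  have n1 := nr_nonneg (fun p : I3 × ι => ∑ i, Φ.p p.1 (cf f i) x * w (i, p.2))
  have n2 := nr_nonneg (fun j : ι => ∑ i, ch ((dc h).ν i) x * w (i, j))
  refine nr_le_of_sq (by positivity) ?_
  have h1 : ∑ p, w p ^ 2 ≤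
      κ ^ 2 * nr (fun p : I3 × ι => ∑ i, Φ.p p.1 (cf f i) x * w (i, p.2)) ^ 2 +
      nr (fun j : ι => ∑ i, ch ((dc h).ν i) x * w (i, j)) ^ 2 := by
    rw [nr_sq, nr_sq, Fintype.sum_prod_type_right, Fintype.sum_prod_type_right, mul_sum,
      ← sum_add_distrib]
    refine sum_le_sum fun j _ => ?_
    rw [Φ.sq_split x fun i => w (i, j)]
    exact add_le_add (hκ.2 _) le_rfl
  nlinarith [mul_nonneg (mul_nonneg h0 n1) n2]

/-- first tangential derivatives -/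
theorem Kap.d1 (hκ : Φ.Kap x κ) (v : ι → R) :
    nr (fun p => ch ((dc h).dT v p) x) ≤ κ * nr (fun p : I3 × ι => Φ.p p.1 (ch (v p.2)) x) := by
  have h1 := hκ.split fun p => ch ((dc h).dT v p) x
  have h2 : (fun j : ι => ∑ i, ch ((dc h).ν i) x * ch ((dc h).dT v (i, j)) x) = fun _ => 0 := by
    funext j
    simpa [DC.dT] using congrArg (fun u : R => ch u x) ((dc h).nd (v j))
  have h3 : (fun p : I3 × ι => ∑ i, Φ.p p.1 (cf f i) x * ch ((dc h).dT v (i, p.2)) x) =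
      fun p : I3 × ι => Φ.p p.1 (ch (v p.2)) x := by
    funext p
    simp [Φ.chain p.1 (v p.2), DC.dT]
  rwa [h2, h3, nr_zero, add_zero] at h1

/-- the size of the second jets -/
def m2 (Φ : Fr h) (x : P3) : ℝ :=
  nr fun p : (I3 × I3) × I4 => Φ.p p.1.1 (Φ.p p.1.2 (cf f p.2)) x

theorem nr_nu (x : P3) : nr (fun i => ch ((dc h).ν i) x) = 1 := by
  have h1 : ∑ i, ch ((dc h).ν i) x ^ 2 = 1 := by
    simpa [sq] using congrArg (fun u : R => ch u x) (dc h).nn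
  rw [nr, h1, Real.sqrt_one]

theorem Kap.n1 (hκ : Φ.Kap x κ) :
    nr (fun p : I3 × I4 => Φ.p p.1 (ch ((dc h).ν p.2)) x) ≤ κ * Φ.m2 x := by
  have h1 := hκ.split fun p : I4 × I3 => Φ.p p.2 (ch ((dc h).ν p.1)) x
  have h2 : (fun c : I3 => ∑ i, ch ((dc h).ν i) x * Φ.p c (ch ((dc h).ν i)) x) = fun _ => 0 := by
    funext c
    have h3 := congrArg (fun u : R => Φ.p c (ch u) x) (dc h).nn
    simp only [Fin.sum_univ_four, map_add, map_mul, Derivation.leibniz, smul_eq_mul, map_one,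
      Derivation.map_one_eq_zero, C3.add_apply, C3.mul_apply, C3.zero_apply] at h3 ⊢
    linarith
  have h3 : (fun p : I3 × I3 => ∑ i, Φ.p p.1 (cf f i) x * Φ.p p.2 (ch ((dc h).ν i)) x) =
      fun p : I3 × I3 => -∑ i, Φ.p p.1 (Φ.p p.2 (cf f i)) x * ch ((dc h).ν i) x := by
    funext p
    have h4 : ∑ k, ch ((dc h).ν k) * Φ.p p.1 (cf f k) = 0 := by
      have h5 := jN_perp Φ.p (cf f) p.1
      simp only [Φ.nu, Fin.sum_univ_four] at h5 ⊢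
      linear_combination -Φ.q * h5
    have h5 := congrArg (fun u : C3 => Φ.p p.2 u x) h4
    simp only [Fin.sum_univ_four, map_add, Derivation.leibniz, smul_eq_mul, map_zero,
      C3.add_apply, C3.mul_apply, C3.zero_apply, Φ.comm p.2 p.1] at h5 ⊢
    linarith
  rw [h2, h3, nr_zero, add_zero, nr_neg] at h1
  have h4 := nr_mv (fun p : (I3 × I3) × I4 => Φ.p p.1.1 (Φ.p p.1.2 (cf f p.2)) x)
    fun i => ch ((dc h).ν i) x
  rw [nr_nu, mul_one] at h4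
  rw [← nr_equiv (Equiv.prodComm I4 I3)]
  exact h1.trans (mul_le_mul_of_nonneg_left h4 hκ.1)

theorem Kap.pd1 (hκ : Φ.Kap x κ) (v : ι → R) :
    nr (fun p : I3 × (I4 × ι) => Φ.p p.1 (ch ((dc h).dT v p.2)) x) ≤
      κ * (nr (fun p : I3 × (I3 × ι) => Φ.p p.1 (Φ.p p.2.1 (ch (v p.2.2))) x) +
        2 * Φ.m2 x * nr (fun p => ch ((dc h).dT v p) x)) := by
  have h1 := hκ.split fun p : I4 × (I3 × ι) => Φ.p p.2.1 (ch ((dc h).dT v (p.1, p.2.2))) x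
  have h2 : (fun j : I3 × ι => ∑ i, ch ((dc h).ν i) x *
      Φ.p j.1 (ch ((dc h).dT v (i, j.2))) x) = fun j : I3 × ι =>
      -∑ i, Φ.p j.1 (ch ((dc h).ν i)) x * ch ((dc h).dT v (i, j.2)) x := by
    funext j
    have h3 := congrArg (fun u : R => Φ.p j.1 (ch u) x) ((dc h).nd (v j.2))
    simp only [Fin.sum_univ_four, map_add, map_mul, Derivation.leibniz, smul_eq_mul, map_zero,
      C3.add_apply, C3.mul_apply, C3.zero_apply, DC.dT] at h3 ⊢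
    linarith
  have h3 : (fun p : I3 × (I3 × ι) => ∑ i, Φ.p p.1 (cf f i) x *
      Φ.p p.2.1 (ch ((dc h).dT v (i, p.2.2))) x) = fun p : I3 × (I3 × ι) =>
      Φ.p p.1 (Φ.p p.2.1 (ch (v p.2.2))) x -
        ∑ i, Φ.p p.1 (Φ.p p.2.1 (cf f i)) x * ch ((dc h).dT v (i, p.2.2)) x := by
    funext p
    have h4 := congrArg (fun u : C3 => Φ.p p.2.1 u x) (Φ.chain p.1 (v p.2.2))
    simp only [Fin.sum_univ_four, map_add, Derivation.leibniz, smul_eq_mul,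
      C3.add_apply, C3.mul_apply, Φ.comm p.2.1 p.1, DC.dT] at h4 ⊢
    linarith
  rw [h2, h3, nr_neg] at h1
  have h4 := nr_mm (fun p : I3 × I4 => Φ.p p.1 (ch ((dc h).ν p.2)) x)
    fun p => ch ((dc h).dT v p) x
  have h5 := nr_mm (fun p : (I3 × I3) × I4 => Φ.p p.1.1 (Φ.p p.1.2 (cf f p.2)) x)
    fun p => ch ((dc h).dT v p) x
  rw [← nr_equiv (Equiv.prodAssoc I3 I3 ι).symm] at h5
  have h6 := nr_sub_le (fun p : I3 × (I3 × ι) => Φ.p p.1 (Φ.p p.2.1 (ch (v p.2.2))) x)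
    fun p => ∑ i, Φ.p p.1 (Φ.p p.2.1 (cf f i)) x * ch ((dc h).dT v (i, p.2.2)) x
  have h7 := mul_le_mul_of_nonneg_right hκ.n1 (nr_nonneg fun p => ch ((dc h).dT v p) x)
  have h8 := mul_le_mul_of_nonneg_left (h6.trans (add_le_add le_rfl h5)) hκ.1
  let e : I4 × (I3 × ι) ≃ I3 × (I4 × ι) :=
    ⟨fun p => (p.2.1, p.1, p.2.2), fun p => (p.2.1, p.1, p.2.2), fun _ => rfl, fun _ => rfl⟩
  rw [← nr_equiv e]
  refine h1.trans ((add_le_add h8 (h4.trans h7)).trans_eq ?_)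
  unfold m2
  ring

/-- first and second tangential derivatives of a family -/
theorem Kap.d12 (hκ : Φ.Kap x κ) (v : ι → R) {N₁ N₂ m : ℝ}
    (h1 : nr (fun p : I3 × ι => Φ.p p.1 (ch (v p.2)) x) ≤ N₁)
    (h2 : nr (fun p : I3 × (I3 × ι) => Φ.p p.1 (Φ.p p.2.1 (ch (v p.2.2))) x) ≤ N₂)
    (hm : Φ.m2 x ≤ m) : nr (fun p => ch ((dc h).dT v p) x) ≤ κ * N₁ ∧
      nr (fun p => ch ((dc h).dT ((dc h).dT v) p) x) ≤ κ ^ 2 * (N₂ + 2 * m * (κ * N₁)) := by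
  have h0 := hκ.1
  have h3 := (hκ.d1 v).trans (mul_le_mul_of_nonneg_left h1 h0)
  refine ⟨h3, (hκ.d1 _).trans ?_⟩
  have h4 := hκ.pd1 v
  have h5 : 0 ≤ Φ.m2 x := nr_nonneg _
  have h6 := nr_nonneg fun p => ch ((dc h).dT v p) x
  have h7 := h5.trans hm
  rw [sq, mul_assoc]
  gcongr
  refine h4.trans ?_
  gcongr

/-- first and second tangential derivatives of a function -/
theorem Kap.s12 (hκ : Φ.Kap x κ) (u : R) {N₁ N₂ m : ℝ}
    (h1 : nr (fun a => Φ.p a (ch u) x) ≤ N₁)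
    (h2 : nr (fun p : I3 × I3 => Φ.p p.1 (Φ.p p.2 (ch u)) x) ≤ N₂)
    (hm : Φ.m2 x ≤ m) : nr (fun i => ch ((dc h).gr u i) x) ≤ κ * N₁ ∧
      nr (fun p => ch ((dc h).dT ((dc h).gr u) p) x) ≤ κ ^ 2 * (N₂ + 2 * m * (κ * N₁)) := by
  have h3 := hκ.d12 (fun _ : Unit => u) (N₁ := N₁) (N₂ := N₂) (m := m)
    (by rw [← nr_equiv (Equiv.prodPUnit I3).symm]; exact h1)
    (by rw [← nr_equiv (Equiv.prodCongr (Equiv.refl I3) (Equiv.prodPUnit I3)).symm]; exact h2) hm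
  rw [← nr_equiv (Equiv.prodPUnit I4).symm,
    ← nr_equiv (Equiv.prodCongr (Equiv.refl I4) (Equiv.prodPUnit I4)).symm] at h3
  exact h3

/-- the size of the shape operator -/
theorem nr_A (Φ : Fr h) (x : P3) {α : ℝ} (h0 : 0 ≤ α)
    (h1 : Φ.q x ^ 6 * jQ Φ.p (cf f) x ≤ α ^ 2) : nr (fun p => ch (uc (dc h).A p) x) ≤ α := by
  refine nr_le_of_sq h0 (le_trans (le_of_eq ?_) h1)
  have h2 := congrArg (fun u : C3 => u x) Φ.ch_AA
  simpa [fp, sq] using h2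

end Fr

end Pool.Agent.MP_48470b_gt.Dic.Fm
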