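import Pool.Agent.MP_48470b_gt.Dic.Chart
import Pool.Agent.MP_48470b_gt.An.Conc

/-! The geometric quantities of an immersion in terms of the jets in the chart. -/

open Finset Matrix

noncomputable section

namespace Pool.Agent.MP_48470b_gt.Dic

open Pool.Agent.MP_48470b_gt.Sph Pool.Agent.MP48470b.An

section jets

variable (F : I4 → C3)

/-- tangent vectors -/
def jT : Matrix I4 I3 C3 := Matrix.of fun k a => pd a (F k)
/-- metric -/
def jG : Matrix I3 I3 C3 := (jT F)ᵀ * jT F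
/-- determinant of the metric -/
def jD : C3 := (jG F).det
/-- adjugate of the metric -/
def jA : Matrix I3 I3 C3 := adjugate (jG F)
/-- normal vector -/
def jN : I4 → C3 := crs (jT F)
/-- second fundamental form, not normalised -/
def jh (a b : I3) : C3 := ∑ k, pd a (pd b (F k)) * jN F k
/-- support function, not normalised -/
def jl : C3 := ∑ k, F k * jN F k
/-- mean curvature, not normalised -/
def jH : C3 := ∑ a, ∑ b, jA F a b * jh F a b
/-- residual, not normalised -/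
def jR : C3 := jH F + hf C3 * jD F * jl F
/-- square of the second fundamental form, not normalised -/
def jQ : C3 := ∑ a, ∑ b, ∑ c, ∑ d, jA F a c * jA F b d * jh F a b * jh F c d
/-- dual vectors, not normalised -/
def jS : Matrix I4 I3 C3 := jT F * jA F
/-- drift vector, not normalised -/
def jZ (k : I4) : C3 := ∑ a, ∑ b, jA F a b * pd a (pd b (F k)) + hf C3 * jD F * F k

theorem jT_apply (k : I4) (a : I3) : jT F k a = pd a (F k) := rfl

theorem jG_apply (a b : I3) : jG F a b = ∑ k, pd a (F k) * pd b (F k) := rfl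

theorem jS_apply (i : I4) (a : I3) : jS F i a = ∑ b, pd b (F i) * jA F b a := rfl

theorem jG_symm : (jG F)ᵀ = jG F := by simp [jG]

theorem jA_symm (a b : I3) : jA F a b = jA F b a := by
  have h : (jA F)ᵀ = jA F := by rw [jA, adjugate_transpose, jG_symm]
  exact (congrFun (congrFun h a) b).symm

theorem jh_symm (a b : I3) : jh F a b = jh F b a := sum_congr rfl fun k _ => by rw [pd_comm]

theorem jN_sq : ∑ k, jN F k * jN F k = jD F := crs_sq _

theorem jN_perp (a : I3) : ∑ k, jN F k * pd a (F k) = 0 := crs_perp _ a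

theorem jR_eq : jR F = ∑ k, jZ F k * jN F k := by
  simp only [jR, jH, jh, jl, jZ, Fin.sum_univ_three, Fin.sum_univ_four]; ring

theorem j_proj (i j : I4) : ∑ a, jS F i a * pd a (F j) + jN F i * jN F j =
    jD F * (1 : Matrix I4 I4 C3) i j := crs_proj (jT F) i j

theorem j_split (v : I4 → C3) (i : I4) : jD F * v i =
    jN F i * ∑ k, jN F k * v k + ∑ a, jS F i a * ∑ k, pd a (F k) * v k := by
  have h : ∑ k, (1 : Matrix I4 I4 C3) i k * v k = v i := by simp [Matrix.one_apply]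
  have h1 := j_proj F i
  rw [← h]
  simp only [Fin.sum_univ_four, Fin.sum_univ_three] at h1 ⊢
  linear_combination -v 0 * h1 0 - v 1 * h1 1 - v 2 * h1 2 - v 3 * h1 3

theorem jS_sq (a b : I3) : ∑ i, jS F i a * jS F i b = jD F * jA F a b := by
  have h : (jS F)ᵀ * jS F = jD F • jA F := by
    have h1 : (jA F)ᵀ = jA F := by rw [jA, adjugate_transpose, jG_symm]
    rw [jS, transpose_mul, h1, Matrix.mul_assoc, ← Matrix.mul_assoc (jT F)ᵀ]
    change jA F * (jG F * adjugate (jG F)) = _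
    rw [mul_adjugate, Matrix.mul_smul, mul_one]; rfl
  exact congrFun (congrFun h a) b

end jets

theorem crs_mul {K : Type*} [CommRing K] (T : Matrix I4 I3 K) (M : Matrix I3 I3 K) (i : I4) :
    crs (T * M) i = M.det * crs T i := by
  fin_cases i <;> simp [crs, mn, det_fin_three, Matrix.mul_apply, Fin.sum_univ_three] <;> ring

theorem crs_map {K L : Type*} [CommRing K] [CommRing L] (φ : K →+* L) (T : Matrix I4 I3 K)
    (i : I4) : φ (crs T i) = crs (T.map φ) i := by
  fin_cases i <;> simp [crs, mn]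

/-- the components in the chart -/
def cf (f : I4 → R) : I4 → C3 := fun k => ch (f k)

variable {f : I4 → R}

theorem ch_T (f : I4 → R) :
    (Matrix.of fun k a => E a (f k)).map (ch : R →+* C3) = jT (cf f) * ecᵀ := by
  refine Matrix.ext fun k a => ?_
  simp only [map_apply, of_apply, Matrix.mul_apply, transpose_apply, jT, cf]
  refine (ch_E a (f k)).trans (sum_congr rfl fun b _ => mul_comm _ _)

theorem ch_gram (f : I4 → R) : ch (gram f) = ww ^ 4 * jD (cf f) := by
  have h := RingHom.map_det (ch : R →+* C3)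
    ((Matrix.of fun k a => E a (f k))ᵀ * (Matrix.of fun k a => E a (f k)))
  rw [RingHom.mapMatrix_apply, Matrix.map_mul, transpose_map, ch_T] at h
  refine h.trans ?_
  rw [transpose_mul, transpose_transpose, Matrix.mul_assoc, ← Matrix.mul_assoc (jT _)ᵀ, det_mul,
    det_mul, det_transpose, det_ec]
  change _ * (jD _ * _) = _
  ring

theorem ch_crs (f : I4 → R) (i : I4) :
    ch (crs (Matrix.of fun k a => E a (f k)) i) = -ww ^ 2 * jN (cf f) i := by
  refine (crs_map (ch : R →+* C3) _ i).trans ?_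
  rw [ch_T, crs_mul, det_transpose, det_ec]; rfl

theorem ch_hf : ch (hf R) = hf C3 := ch.commutes _

/-- the inverse square root of the determinant -/
def jq (h : Imm f) : C3 := ww ^ 2 * ch (fr h).Ji

variable (h : Imm f)

theorem jq_pos (x : P3) : 0 < jq h x := by
  have h1 := one_le_ww x
  have h2 : 0 < ch (fr h).Ji x := inv_pos.2 (Real.sqrt_pos.2 (h _))
  simp only [jq, C3.mul_apply, C3.pow_apply]
  positivity

theorem jq_sq : jq h ^ 2 * jD (cf f) = 1 := by
  have h1 := congrArg ch (fr h).hJ'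
  have h2 : (fr h).g.det = gram f := rfl
  rw [map_mul, map_mul, h2, ch_gram, map_one] at h1
  rw [jq]; linear_combination h1

include h in
theorem jD_pos (x : P3) : 0 < jD (cf f) x := by
  have h1 := congrArg (fun u : C3 => u x) (jq_sq h)
  simp only [C3.mul_apply, C3.pow_apply, C3.one_apply] at h1
  exact pos_of_mul_pos_right (h1 ▸ one_pos) (sq_nonneg _)

theorem jq_apply (x : P3) : jq h x = (√(jD (cf f) x))⁻¹ := by
  have h1 := congrArg (fun u : C3 => u x) (jq_sq h)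
  simp only [C3.mul_apply, C3.pow_apply, C3.one_apply] at h1
  have h2 := jq_pos h x
  have h3 : jD (cf f) x = (jq h x)⁻¹ ^ 2 := by field_simp; linarith
  rw [h3, Real.sqrt_sq (by positivity), inv_inv]

theorem pd_jq (a : I3) : pd a (jq h) = -(hf C3 * jq h ^ 3 * pd a (jD (cf f))) := by
  have h1 := jq_sq h
  have h2 := congrArg (pd a) h1
  have h3 := two_hf C3
  simp only [sq, Derivation.leibniz, smul_eq_mul, Derivation.map_one_eq_zero] at h2
  linear_combination hf C3 * jq h * h2 - pd a (jq h) * h3 - 2 * hf C3 * pd a (jq h) * h1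

theorem ch_J : ch (fr h).J = ww ^ 2 * (jq h * jD (cf f)) := by
  have h1 := congrArg ch (fr h).hJ
  have h2 := congrArg ch (fr h).hJi
  rw [map_mul, map_one] at h2
  have h3 : ch ((fr h).J * (fr h).J) = ch (gram f) := h1
  rw [map_mul, ch_gram] at h3
  rw [jq]
  linear_combination ch (fr h).Ji * h3 - ch (fr h).J * h2

theorem ch_rho (x : P3) : ch (rho h) x =
    ww x ^ 2 * √(jD (cf f) x) * Real.exp (-1 / 4 * ∑ k, cf f k x ^ 2) := by
  have h1 : gram f (pr (up x)) = ww x ^ 4 * jD (cf f) x := by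
    simpa [ch_apply'] using congrArg (fun u : C3 => u x) (ch_gram f)
  rw [ch_apply', rho_apply, h1, show ww x ^ 4 = (ww x ^ 2) ^ 2 by ring,
    Real.sqrt_mul (sq_nonneg _), Real.sqrt_sq (sq_nonneg _)]
  rfl

theorem ch_nu (i : I4) : ch ((dc h).ν i) = -(jq h * jN (cf f) i) := by
  have h1 : (dc h).ν i = (fr h).Ji * crs (Matrix.of fun k a => E a (f k)) i := rfl
  rw [h1, map_mul, ch_crs, jq]; ring

/-- the chain rule -/
theorem pd_chain (a : I3) (u : R) :
    pd a (ch u) = ∑ k, pd a (cf f k) * ch ((dc h).d k u) := by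
  ext x
  rw [pd_ch, C3.sum_apply]
  simp only [C3.mul_apply, cf, pd_ch, fderiv_hom_frame _ (up_ne x)]
  have h1 : ∀ i, hom (E i u) (up x) = ∑ k, hom (E i (f k)) (up x) * ch ((dc h).d k u) x := by
    intro i
    rw [dc_E h i u]
    simp [hom, ch_apply]
  simp only [h1, Fin.sum_univ_three, Fin.sum_univ_four]
  ring

theorem jN_d (u : R) : ∑ k, jN (cf f) k * ch ((dc h).d k u) = 0 := by
  have h1 := congrArg ch ((dc h).nd u)
  have h2 := jq_sq h
  simp only [map_zero, map_add, map_mul, ch_nu, Fin.sum_univ_four] at h1 ⊢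
  linear_combination -(jq h * jD (cf f)) * h1 - (jN (cf f) 0 * ch ((dc h).d 0 u) +
    jN (cf f) 1 * ch ((dc h).d 1 u) + jN (cf f) 2 * ch ((dc h).d 2 u) +
    jN (cf f) 3 * ch ((dc h).d 3 u)) * h2

include h in
theorem q_split (v : I4 → C3) (i : I4) : v i = jq h ^ 2 *
    (jN (cf f) i * ∑ k, jN (cf f) k * v k + ∑ a, jS (cf f) i a * ∑ k, pd a (cf f k) * v k) := by
  rw [← j_split]; linear_combination -v i * jq_sq h

/-- the tangential derivative -/
theorem ch_d (i : I4) (u : R) :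
    ch ((dc h).d i u) = jq h ^ 2 * ∑ a, jS (cf f) i a * pd a (ch u) := by
  rw [q_split h (fun k => ch ((dc h).d k u)) i, jN_d, mul_zero, zero_add]
  simp only [← pd_chain]

theorem ch_grad (u v : R) : ∑ i, ch ((dc h).d i u) * ch ((dc h).d i v) =
    jq h ^ 2 * ∑ a, ∑ b, jA (cf f) a b * pd a (ch u) * pd b (ch v) := by
  have h1 := jS_sq (cf f)
  have h2 := jq_sq h
  simp only [ch_d, Fin.sum_univ_three, Fin.sum_univ_four] at h1 ⊢
  generalize pd 0 (ch u) = u0, pd 1 (ch u) = u1, pd 2 (ch u) = u2, pd 0 (ch v) = v0,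
    pd 1 (ch v) = v1, pd 2 (ch v) = v2
  linear_combination jq h ^ 4 * (u0 * v0 * h1 0 0 + u0 * v1 * h1 0 1 + u0 * v2 * h1 0 2 +
    u1 * v0 * h1 1 0 + u1 * v1 * h1 1 1 + u1 * v2 * h1 1 2 + u2 * v0 * h1 2 0 + u2 * v1 * h1 2 1 +
    u2 * v2 * h1 2 2) + jq h ^ 2 * (jA (cf f) 0 0 * u0 * v0 + jA (cf f) 0 1 * u0 * v1 +
    jA (cf f) 0 2 * u0 * v2 + jA (cf f) 1 0 * u1 * v0 + jA (cf f) 1 1 * u1 * v1 +
    jA (cf f) 1 2 * u1 * v2 + jA (cf f) 2 0 * u2 * v0 + jA (cf f) 2 1 * u2 * v1 +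
    jA (cf f) 2 2 * u2 * v2) * h2

/-- the Weingarten equations -/
theorem pd_nu (a : I3) (j : I4) :
    pd a (ch ((dc h).ν j)) = jq h ^ 3 * ∑ b, jS (cf f) j b * jh (cf f) a b := by
  have h1 := congrArg (fun u => pd a (ch u)) (dc h).nn
  have h2 : ∀ b, ∑ k, pd b (cf f k) * pd a (ch ((dc h).ν k)) = jq h * jh (cf f) a b := by
    intro b
    have h3 : ∑ k, ch ((dc h).ν k) * pd b (cf f k) = 0 := by
      have h4 := jN_perp (cf f) b
      simp only [ch_nu, Fin.sum_univ_four] at h4 ⊢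
      linear_combination -jq h * h4
    have h4 := congrArg (pd a) h3
    simp only [Fin.sum_univ_four, map_add, Derivation.leibniz, smul_eq_mul, map_zero] at h4
    simp only [jh, Fin.sum_univ_four]
    linear_combination h4 - pd a (pd b (cf f 0)) * ch_nu h 0 - pd a (pd b (cf f 1)) * ch_nu h 1
      - pd a (pd b (cf f 2)) * ch_nu h 2 - pd a (pd b (cf f 3)) * ch_nu h 3
  have h5 : jq h * ∑ k, jN (cf f) k * pd a (ch ((dc h).ν k)) = 0 := by
    simp only [Fin.sum_univ_four, map_add, map_mul, Derivation.leibniz, smul_eq_mul, map_one,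
      Derivation.map_one_eq_zero] at h1 ⊢
    have h6 := two_hf C3
    linear_combination -hf C3 * h1 + pd a (ch ((dc h).ν 0)) * ch_nu h 0 +
      pd a (ch ((dc h).ν 1)) * ch_nu h 1 + pd a (ch ((dc h).ν 2)) * ch_nu h 2 +
      pd a (ch ((dc h).ν 3)) * ch_nu h 3 + (ch ((dc h).ν 0) * pd a (ch ((dc h).ν 0)) +
      ch ((dc h).ν 1) * pd a (ch ((dc h).ν 1)) + ch ((dc h).ν 2) * pd a (ch ((dc h).ν 2)) +
      ch ((dc h).ν 3) * pd a (ch ((dc h).ν 3))) * h6
  rw [q_split h (fun k => pd a (ch ((dc h).ν k))) j]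
  simp only [h2, Fin.sum_univ_three]
  linear_combination jq h * jN (cf f) j * h5

/-- the shape operator -/
theorem ch_A (i j : I4) : ch ((dc h).A i j) =
    jq h ^ 5 * ∑ a, ∑ b, jS (cf f) i a * jS (cf f) j b * jh (cf f) a b := by
  rw [DC.A_apply, ch_d]
  simp only [pd_nu, Fin.sum_univ_three]
  ring

theorem ch_H : ch (dc h).H = jq h ^ 3 * jH (cf f) := by
  have h1 := jS_sq (cf f)
  have h2 := jq_sq h
  have h3 : (dc h).H = ∑ i, (dc h).A i i := rfl
  simp only [h3, map_add, ch_A, jH, Fin.sum_univ_three, Fin.sum_univ_four] at h1 ⊢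
  generalize jh (cf f) = t
  linear_combination jq h ^ 5 * (t 0 0 * h1 0 0 + t 0 1 * h1 0 1 + t 0 2 * h1 0 2 +
    t 1 0 * h1 1 0 + t 1 1 * h1 1 1 + t 1 2 * h1 1 2 + t 2 0 * h1 2 0 + t 2 1 * h1 2 1 +
    t 2 2 * h1 2 2) + jq h ^ 3 * (jA (cf f) 0 0 * t 0 0 + jA (cf f) 0 1 * t 0 1 +
    jA (cf f) 0 2 * t 0 2 + jA (cf f) 1 0 * t 1 0 + jA (cf f) 1 1 * t 1 1 +
    jA (cf f) 1 2 * t 1 2 + jA (cf f) 2 0 * t 2 0 + jA (cf f) 2 1 * t 2 1 +
    jA (cf f) 2 2 * t 2 2) * h2

theorem ch_lam : ch (dc h).lam = -(jq h * jl (cf f)) := by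
  simp only [DC.lam, dc_f, map_add, map_mul, ch_nu, jl, cf, Fin.sum_univ_four]
  ring

/-- the residual -/
theorem ch_R : ch (dc h).R = jq h ^ 3 * jR (cf f) := by
  rw [DC.R, map_sub, map_mul, ch_H, ch_lam, ch_hf, jR]
  linear_combination -(hf C3 * jq h * jl (cf f)) * jq_sq h

/-- the square of the shape operator -/
theorem ch_AA : ch (fp (dc h).A (dc h).A) = jq h ^ 6 * jQ (cf f) := by
  have h1 : fp (dc h).A (dc h).A = ∑ j, ∑ i, (dc h).d i ((dc h).ν j) * (dc h).d i ((dc h).ν j) := by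
    rw [DC.fp_eq, sum_comm]; rfl
  have h2 := jq_sq h
  have h3 : ∀ a c, ∑ j, pd a (ch ((dc h).ν j)) * pd c (ch ((dc h).ν j)) =
      jq h ^ 4 * ∑ b, ∑ d, jA (cf f) b d * jh (cf f) a b * jh (cf f) c d := by
    intro a c
    have h4 := jS_sq (cf f)
    simp only [pd_nu, Fin.sum_univ_three, Fin.sum_univ_four] at h4 ⊢
    generalize jh (cf f) a = u, jh (cf f) c = v
    linear_combination jq h ^ 6 * (u 0 * v 0 * h4 0 0 + u 0 * v 1 * h4 0 1 + u 0 * v 2 * h4 0 2 +
      u 1 * v 0 * h4 1 0 + u 1 * v 1 * h4 1 1 + u 1 * v 2 * h4 1 2 + u 2 * v 0 * h4 2 0 +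
      u 2 * v 1 * h4 2 1 + u 2 * v 2 * h4 2 2) + jq h ^ 4 * (jA (cf f) 0 0 * u 0 * v 0 +
      jA (cf f) 0 1 * u 0 * v 1 + jA (cf f) 0 2 * u 0 * v 2 + jA (cf f) 1 0 * u 1 * v 0 +
      jA (cf f) 1 1 * u 1 * v 1 + jA (cf f) 1 2 * u 1 * v 2 + jA (cf f) 2 0 * u 2 * v 0 +
      jA (cf f) 2 1 * u 2 * v 1 + jA (cf f) 2 2 * u 2 * v 2) * h2
  rw [h1]
  simp only [map_sum, map_mul, ch_grad]
  have h5 : ∑ j, jq h ^ 2 * ∑ a, ∑ c, jA (cf f) a c * pd a (ch ((dc h).ν j)) *
      pd c (ch ((dc h).ν j)) = jq h ^ 2 * ∑ a, ∑ c, jA (cf f) a c *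
      ∑ j, pd a (ch ((dc h).ν j)) * pd c (ch ((dc h).ν j)) := by
    simp only [Fin.sum_univ_three, Fin.sum_univ_four]; ring
  rw [h5]
  simp only [h3, jQ, Fin.sum_univ_three]
  ring

/-- the Laplace operator of the hypersurface -/
theorem ch_lap (u : R) : ch ((dc h).lap u) = jq h ^ 2 * ∑ a, ∑ b, jA (cf f) a b *
    (pd a (pd b (ch u)) - ∑ k, pd a (pd b (cf f k)) * ch ((dc h).d k u)) := by
  have h1 : ∀ a b, pd a (pd b (ch u)) - ∑ k, pd a (pd b (cf f k)) * ch ((dc h).d k u) =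
      ∑ k, pd b (cf f k) * pd a (ch ((dc h).d k u)) := by
    intro a b
    rw [pd_chain h b u]
    simp only [Fin.sum_univ_four, map_add, Derivation.leibniz, smul_eq_mul]
    ring
  have h2 : ∀ i, ch ((dc h).d i ((dc h).d i u)) =
      jq h ^ 2 * ∑ a, jS (cf f) i a * pd a (ch ((dc h).d i u)) := fun i => ch_d h i _
  simp only [DC.lap, map_sum, h1, h2, jS_apply]
  simp only [Fin.sum_univ_three, Fin.sum_univ_four, jA_symm (cf f) 1 0, jA_symm (cf f) 2 0,
    jA_symm (cf f) 2 1]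
  ring

/-- the drift Laplace operator -/
theorem ch_lf (u : R) : ch ((dc h).lf u) = jq h ^ 2 *
    (∑ a, ∑ b, jA (cf f) a b * pd a (pd b (ch u)) - ∑ k, jZ (cf f) k * ch ((dc h).d k u)) := by
  have h2 := jq_sq h
  rw [DC.lf, map_sub, ch_lap, map_mul, ch_hf]
  have e : ∀ k, ch (f k) = cf f k := fun _ => rfl
  simp only [dc_f, map_add, map_mul, jZ, Fin.sum_univ_three, Fin.sum_univ_four, e]
  linear_combination (hf C3 * (cf f 0 * ch ((dc h).d 0 u) + cf f 1 * ch ((dc h).d 1 u) +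
    cf f 2 * ch ((dc h).d 2 u) + cf f 3 * ch ((dc h).d 3 u))) * h2

/-- the stability operator -/
theorem ch_L (u : R) : ch ((dc h).L u) =
    jq h ^ 2 * ∑ a, ∑ b, jA (cf f) a b * pd a (pd b (ch u))
      - jq h ^ 4 * ∑ c, (∑ k, jZ (cf f) k * jS (cf f) k c) * pd c (ch u)
      + (jq h ^ 6 * jQ (cf f) + hf C3) * ch u := by
  rw [DC.L, map_add, map_mul, ch_lf, DC.V, map_add, ch_AA, ch_hf]
  simp only [ch_d, Fin.sum_univ_three, Fin.sum_univ_four]
  ring

end Pool.Agent.MP_48470b_gt.Dic
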