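import Pool.Agent.MP_48470b_gt.Dic.Red

/-! The inequalities at a point of the chart in terms of jets. -/

open Finset Matrix
open scoped NNReal

noncomputable section

namespace Pool.Agent.MP_48470b_gt.Dic

open Pool.Agent.MP_48470b_gt.Sph Pool.Agent.MP48470b.An

theorem exp_lo {c : ℝ} {n : ℕ} (h : c ≤ n) (t : ℝ) :
    (1 - c / n) ^ n * (1 - (t - c)) ≤ Real.exp (-t) := by
  have h1 := Real.one_sub_div_pow_le_exp_neg h
  have h2 := Real.add_one_le_exp (-(t - c))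
  have h3 : Real.exp (-t) = Real.exp (-c) * Real.exp (-(t - c)) := by
    rw [← Real.exp_add]; congr 1; ring
  have h4 : 0 ≤ (1 - c / n) ^ n :=
    pow_nonneg (sub_nonneg.2 (div_le_one_of_le₀ h (Nat.cast_nonneg n))) n
  rw [h3]
  calc _ ≤ (1 - c / n) ^ n * Real.exp (-(t - c)) := mul_le_mul_of_nonneg_left (by linarith) h4
    _ ≤ _ := mul_le_mul_of_nonneg_right h1 (Real.exp_pos _).le

theorem exp_lo' {c t : ℝ} {n : ℕ} (h : c ≤ n) (ht : t ≤ c) : (1 - c / n) ^ n ≤ Real.exp (-t) :=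
  (Real.one_sub_div_pow_le_exp_neg h).trans (Real.exp_le_exp.2 (by linarith))

theorem exp_hi {c t : ℝ} (h : 0 ≤ c) (ht : c ≤ t) (n : ℕ) :
    Real.exp (-t) * (1 + c / n) ^ n ≤ 1 := by
  have h1 := Real.one_sub_div_pow_le_exp_neg (t := -c) (n := n)
    (by linarith [(Nat.cast_nonneg n : (0 : ℝ) ≤ n)])
  rw [neg_div, sub_neg_eq_add, neg_neg] at h1
  calc _ ≤ Real.exp (-t) * Real.exp c := mul_le_mul_of_nonneg_left h1 (Real.exp_pos _).le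
    _ ≤ _ := by rw [← Real.exp_add]; exact Real.exp_le_one_iff.2 (by linarith)

theorem nu_mono_lam {A : Type*} [CommRing A] [Algebra ℝ A] (φ : A →ₐ[ℝ] ℝ)
    (d : I3 → Derivation ℝ A A) {l l' : ℝ≥0} (h : l ≤ l') (k : ℕ) :
    ∀ u, nu φ d l k u ≤ nu φ d l' k u := by
  induction k with
  | zero => exact fun _ => le_rfl
  | succ k ih =>
    intro u
    rw [nu_succ, nu_succ]
    exact add_le_add (ih u) (mul_le_mul (NNReal.coe_le_coe.2 h) (sum_le_sum fun i _ => ih _)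
      (sum_nonneg fun _ _ => apply_nonneg _ _) l'.coe_nonneg)

/-- first and second derivatives from the seminorm of order two -/
theorem der_le_nu {A : Type*} [CommRing A] [Algebra ℝ A] (φ : A →ₐ[ℝ] ℝ)
    (d : I3 → Derivation ℝ A A) {lam : ℝ≥0} {L : ℝ} (hL : 1 ≤ L * lam) (u : A) (c : ℝ) :
    nr (fun a => φ (d a u)) ≤ L / 2 * nu φ d lam 2 (u - algebraMap ℝ A c) ∧
    nr (fun p : I3 × I3 => φ (d p.1 (d p.2 u))) ≤ L ^ 2 * nu φ d lam 2 (u - algebraMap ℝ A c) := by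
  have l0 := lam.coe_nonneg
  have h0 : 0 ≤ L := by
    by_contra hc
    nlinarith [mul_nonneg (neg_nonneg.2 (not_le.1 hc).le) l0]
  have hu := nu_two_eq φ d lam (u - algebraMap ℝ A c)
  simp only [map_sub (d _), Derivation.map_algebraMap, sub_zero] at hu
  have a0 := abs_nonneg (φ (u - algebraMap ℝ A c))
  have a1 : 0 ≤ ∑ i, |φ (d i u)| := sum_nonneg fun _ _ => abs_nonneg _
  have a2 : 0 ≤ ∑ p : I3 × I3, |φ (d p.1 (d p.2 u))| := sum_nonneg fun _ _ => abs_nonneg _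
  generalize nu φ d lam 2 (u - algebraMap ℝ A c) = η at hu ⊢
  refine ⟨(Fm.nr_le_sum_abs _).trans ?_, (Fm.nr_le_sum_abs _).trans ?_⟩
  · have b1 : 2 * lam * ∑ i, |φ (d i u)| ≤ η := by nlinarith [mul_nonneg (sq_nonneg (lam : ℝ)) a2]
    nlinarith [mul_le_mul_of_nonneg_left b1 h0, mul_le_mul_of_nonneg_right hL a1]
  · have b2 : lam ^ 2 * ∑ p : I3 × I3, |φ (d p.1 (d p.2 u))| ≤ η := by nlinarith [mul_nonneg l0 a1]
    have b3 : 1 ≤ (L * lam) ^ 2 := one_le_pow₀ hL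
    nlinarith [mul_le_mul_of_nonneg_left b2 (sq_nonneg L), mul_le_mul_of_nonneg_right b3 a2]

theorem nr_fam {ι κ : Type*} [Fintype ι] [Fintype κ] {w : κ × ι → ℝ} {a : ι → ℝ} {c : ℝ}
    (hc : 0 ≤ c) (h : ∀ j, nr (fun i => w (i, j)) ≤ c * a j) : nr w ≤ c * nr a := by
  refine nr_le_of_sq (mul_nonneg hc (nr_nonneg _)) ?_
  rw [mul_pow, nr_sq, Fintype.sum_prod_type_right, mul_sum]
  refine sum_le_sum fun j _ => ?_
  rw [← nr_sq fun i => w (i, j), ← mul_pow]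
  exact pow_le_pow_left₀ (nr_nonneg _) (h j) 2

theorem nr_mono {ι : Type*} [Fintype ι] {v w : ι → ℝ} (h : ∀ j, |v j| ≤ w j) : nr v ≤ nr w :=
  nr_le_nr (sum_le_sum fun j _ => sq_le_sq' (abs_le.1 (h j)).1 (abs_le.1 (h j)).2)

/-- the same for a family -/
theorem fam_le_nu {A ι : Type*} [CommRing A] [Algebra ℝ A] [Fintype ι] (φ : A →ₐ[ℝ] ℝ)
    (d : I3 → Derivation ℝ A A) {lam : ℝ≥0} {L : ℝ} (hL : 1 ≤ L * lam) (v : ι → A)
    {c a : ι → ℝ} (h : ∀ j, nu φ d lam 2 (v j - algebraMap ℝ A (c j)) ≤ a j) :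
    nr (fun p : I3 × ι => φ (d p.1 (v p.2))) ≤ L / 2 * nr a ∧
    nr (fun p : I3 × (I3 × ι) => φ (d p.1 (d p.2.1 (v p.2.2)))) ≤ L ^ 2 * nr a := by
  have h0 : 0 ≤ L := by
    by_contra hc
    nlinarith [mul_nonneg (neg_nonneg.2 (not_le.1 hc).le) lam.coe_nonneg]
  refine ⟨nr_fam (by positivity) fun j => (der_le_nu φ d hL (v j) (c j)).1.trans
    (mul_le_mul_of_nonneg_left (h j) (by positivity)), ?_⟩
  rw [← nr_equiv (Equiv.prodAssoc I3 I3 ι)]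
  exact nr_fam (by positivity) fun j => (der_le_nu φ d hL (v j) (c j)).2.trans
    (mul_le_mul_of_nonneg_left (h j) (by positivity))

variable {f : I4 → R}

/-- the square of the induced metric with respect to the round metric -/
theorem met_eq (f : I4 → R) (x : P3) :
    ∑ a, ∑ b, (∑ k, ch (E a (f k)) x * ch (E b (f k)) x) ^ 2 = ww x ^ 2 *
      (∑ a, ∑ b, jG (cf f) a b x ^ 2 + 2 * ∑ a, (∑ b, jG (cf f) a b x * x b) ^ 2 +
        (∑ a, ∑ b, jG (cf f) a b x * x a * x b) ^ 2) := by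
  have h1 : ∀ a b, ∑ k, ch (E a (f k)) x * ch (E b (f k)) x =
      ∑ c, ∑ d, ec a c x * ec b d x * jG (cf f) c d x := fun a b => by
    simp only [ch_E, jG_apply, cf, Fin.sum_univ_three, Fin.sum_univ_four, C3.add_apply,
      C3.mul_apply]
    ring
  have s : ∀ a b, jG (cf f) a b x = jG (cf f) b a x := fun a b => by
    simp only [jG_apply, C3.sum_apply, C3.mul_apply, mul_comm]
  simp only [h1, Fin.sum_univ_three, s 1 0, s 2 0, s 2 1, ww_apply]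
  generalize jG (cf f) 0 0 x = g0, jG (cf f) 1 1 x = g1, jG (cf f) 2 2 x = g2,
    jG (cf f) 0 1 x = g3, jG (cf f) 0 2 x = g4, jG (cf f) 1 2 x = g5
  simp [ec]
  ring

namespace Fm

variable (B : Matrix I3 I3 ℝ) {ι : Type*} [Fintype ι]

theorem nr_pb1 (u : ι → C3) (x : P3) : nr (fun p : I3 × ι => pb B p.1 (u p.2) x) ≤
    nr (fun p : I3 × I3 => B p.1 p.2) * nr fun p : I3 × ι => pd p.1 (u p.2) x := by
  have h := nr_mm (fun p : I3 × I3 => B p.2 p.1) fun p : I3 × ι => pd p.1 (u p.2) x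
  rw [← nr_equiv (Equiv.prodComm I3 I3) fun p : I3 × I3 => B p.1 p.2]
  simpa [pb_apply] using h

theorem nr_pb2 (u : ι → C3) (x : P3) :
    nr (fun p : I3 × (I3 × ι) => pb B p.1 (pb B p.2.1 (u p.2.2)) x) ≤
      nr (fun p : I3 × I3 => B p.1 p.2) ^ 2 *
        nr fun p : I3 × (I3 × ι) => pd p.1 (pd p.2.1 (u p.2.2)) x := by
  let e : I3 × (I3 × ι) ≃ I3 × (I3 × ι) :=
    ⟨fun p => (p.2.1, p.1, p.2.2), fun p => (p.2.1, p.1, p.2.2), fun _ => rfl, fun _ => rfl⟩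
  have h1 := nr_pb1 B (fun p : I3 × ι => pb B p.1 (u p.2)) x
  have h2 := nr_pb1 B (fun p : I3 × ι => pd p.1 (u p.2)) x
  have c : ∀ a b v, pd a (pb B b v) = pb B b (pd a v) := fun a b v => by
    simp only [pb_apply, map_sum, Derivation.map_smul, pd_comm a]
  rw [← nr_equiv e] at h2
  simp only [c] at h1
  rw [sq, mul_assoc]
  exact h1.trans (mul_le_mul_of_nonneg_left h2 (nr_nonneg _))

theorem jA_pb (F : I4 → C3) (c d : I3) :
    ∑ a, ∑ b, (B c a * B d b) • jA (pb B) F a b = B.det ^ 2 • jA pd F c d := by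
  obtain ⟨M, hM⟩ : ∃ M, M = B.map (algebraMap ℝ C3) := ⟨_, rfl⟩
  have h1 : jA (pb B) F = adjugate M * (jA pd F * adjugate Mᵀ) := by
    rw [jA, jG, jT_pb, ← hM, transpose_mul, Matrix.mul_assoc, ← Matrix.mul_assoc (jT pd F)ᵀ,
      adjugate_mul_distrib, adjugate_mul_distrib, Matrix.mul_assoc]
    rfl
  have h2 : M * jA (pb B) F * Mᵀ = M.det • M.det • jA pd F := by
    rw [h1, ← Matrix.mul_assoc, mul_adjugate, Matrix.mul_assoc, Matrix.mul_assoc, adjugate_mul,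
      det_transpose]
    simp
  have h3 := congrFun (congrFun h2 c) d
  rw [Matrix.smul_apply, Matrix.smul_apply, hM, det_map] at h3
  simp only [Matrix.mul_apply, map_apply, transpose_apply, smul_eq_mul,
    Fin.sum_univ_three, Algebra.smul_def, map_mul, map_pow] at h3 ⊢
  linear_combination h3

variable {B} (h : Imm f) (hB : 0 < B.det)

/-- the inverse metric in the coordinate frame -/
theorem kap_std {x : P3} {κ β : ℝ} (hκ : (ofB h B hB).Kap x κ)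
    (hβ : nr (fun p : I3 × I3 => B p.1 p.2) ≤ β) : (std h).Kap x (β * κ) := by
  have b0 := (nr_nonneg _).trans hβ
  refine ⟨mul_nonneg b0 hκ.1, fun s => ?_⟩
  have h1 := hκ.2 fun a => ∑ c, s c * B c a
  have h2 : ∑ a, (∑ c, s c * B c a) ^ 2 ≤ β ^ 2 * ∑ a, s a ^ 2 := by
    rw [← nr_sq, ← nr_sq s, ← mul_pow, mul_comm]
    exact pow_le_pow_left₀ (nr_nonneg _) ((nr_vm s fun p : I3 × I3 => B p.1 p.2).trans
      (mul_le_mul_of_nonneg_left hβ (nr_nonneg _))) 2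
  have h3 := fun c d => congrArg (fun u : C3 => u x) (jA_pb B (cf f) c d)
  have h4 : jq h x = B.det * (ofB h B hB).q x := by rw [jq_eq h B hB]; rfl
  have h5 : (std h).q x ^ 2 * ∑ a, ∑ b, jA (std h).p (cf f) a b x * s a * s b =
      (ofB h B hB).q x ^ 2 * ∑ a, ∑ b, jA (ofB h B hB).p (cf f) a b x * (∑ c, s c * B c a) *
        ∑ c, s c * B c b := by
    change jq h x ^ 2 * ∑ a, ∑ b, jA pd (cf f) a b x * s a * s b = _
    simp only [h4, ofB_p, Fin.sum_univ_three, C3.add_apply, C3.smul_apply] at h3 ⊢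
    generalize (ofB h B hB).q x = q
    linear_combination -q ^ 2 * (s 0 * s 0 * h3 0 0 + s 0 * s 1 * h3 0 1 + s 0 * s 2 * h3 0 2 +
      s 1 * s 0 * h3 1 0 + s 1 * s 1 * h3 1 1 + s 1 * s 2 * h3 1 2 + s 2 * s 0 * h3 2 0 +
      s 2 * s 1 * h3 2 1 + s 2 * s 2 * h3 2 2)
  rw [h5, mul_pow, mul_comm (β ^ 2), mul_assoc]
  exact h1.trans (mul_le_mul_of_nonneg_left h2 (sq_nonneg _))

/-- the volume element -/
theorem Jc_eq (x : P3) :
    Gap.Jc f x = B.det⁻¹ * ((ofB h B hB).q x * jD (pb B) (cf f) x) := by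
  have h1 : Gap.Jc f x = √(Dic.jD (cf f) x) := rfl
  have h2 : jD pd (cf f) x = Dic.jD (cf f) x := rfl
  have h3 := Real.sqrt_pos.2 (jD_pos h x)
  have h4 := Real.sq_sqrt (jD_pos h x).le
  rw [h1, jD_pb, ofB_q, C3.smul_apply, C3.smul_apply, h2, jq_apply]
  field_simp
  exact h4

theorem Jc_mul (x : P3) : Gap.Jc f x * (B.det * (ofB h B hB).q x) = 1 := by
  have h1 := congrArg (fun u : C3 => u x) (ofB h B hB).qsq
  simp only [ofB_p, C3.mul_apply, C3.pow_apply, C3.one_apply] at h1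
  rw [Jc_eq h hB]
  field_simp
  linear_combination h1

/-- the weight -/
theorem rho_eq (x : P3) : ch (rho h) x =
    ww x ^ 2 * (B.det⁻¹ * ((ofB h B hB).q x * jD (pb B) (cf f) x)) *
      Real.exp (-(1 / 4 * ∑ k, cf f k x ^ 2)) := by
  rw [Gap.ch_rho, Jc_eq h hB, neg_div, neg_mul]; rfl

theorem bbF_eq (e : ℕ) (t : ℝ × ℝ × ℝ) : Gap.bbF f e t =
    B.det * ((ofB h B hB).q (Gap.tv3 t) * Gap.Ge f e (Gap.tv3 t)) := by
  rw [Gap.bbF, div_eq_iff (Gap.Jc_pos h _).ne']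
  linear_combination -Gap.Ge f e (Gap.tv3 t) * Jc_mul h hB (Gap.tv3 t)

theorem Gc_eq (f : I4 → R) : Gap.Gc f = jG pd (cf f) := rfl

namespace Fr

variable {h} (Φ : Fr h)

/-- the potential -/
theorem ch_Vg (r : ℝ) (x : P3) : ch (Gap.Vg (dc h) r) x =
    r + 5 / 4 + Φ.q x ^ 6 * jQ Φ.p (cf f) x - (∑ k, cf f k x ^ 2) / 16 +
      Φ.q x ^ 2 * jl Φ.p (cf f) x ^ 2 / 16 + Φ.q x ^ 4 * (jH Φ.p (cf f) x * jl Φ.p (cf f) x) / 4 := by
  have h1 := congrArg (fun u : C3 => u x) Φ.ch_AA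
  have h2 := congrArg (fun u : C3 => u x) Φ.ch_H
  have h3 := congrArg (fun u : C3 => u x) Φ.ch_lam
  simp only [ch_apply', C3.mul_apply, C3.pow_apply, C3.neg_apply] at h1 h2 h3
  rw [ch_apply', Gap.Vg_apply, h1, h2, h3]
  have e : ∀ k, (dc h).f k (pr (up x)) = cf f k x := fun _ => rfl
  simp only [e]
  ring

/-- the potential with the residual in place of the mean curvature -/
theorem ch_Vg' (r : ℝ) (x : P3) : ch (Gap.Vg (dc h) r) x =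
    r + 5 / 4 + Φ.q x ^ 6 * jQ Φ.p (cf f) x - (∑ k, cf f k x ^ 2) / 16 -
      Φ.q x ^ 2 * jl Φ.p (cf f) x ^ 2 / 16 + ch (dc h).R x * (Φ.q x * jl Φ.p (cf f) x) / 4 := by
  have h1 := congrArg (fun u : C3 => u x) Φ.qsq
  have h2 : hf C3 x = 1 / 2 := rfl
  rw [Φ.ch_Vg, Φ.ch_R, jR]
  simp only [C3.mul_apply, C3.pow_apply, C3.add_apply, C3.one_apply, h2] at h1 ⊢
  linear_combination -(Φ.q x ^ 2 * jl Φ.p (cf f) x ^ 2 / 8) * h1

variable {Φ} {x : P3} {κ : ℝ}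

/-- the tangential part of a vector -/
theorem Kap.tan (hκ : Φ.Kap x κ) (w : I4 → ℝ) :
    ∑ k, w k ^ 2 - (∑ k, ch ((dc h).ν k) x * w k) ^ 2 ≤
      κ ^ 2 * ∑ a, (∑ k, Φ.p a (cf f k) x * w k) ^ 2 := by
  rw [Φ.sq_split x w, add_sub_cancel_right]
  exact hκ.2 _

end Fr

theorem vvF_eq (r : ℝ) (t : ℝ × ℝ × ℝ) : Gap.vvF h r t =
    B.det⁻¹ * ((ofB h B hB).q (Gap.tv3 t) * jD (pb B) (cf f) (Gap.tv3 t)) *
      ch (Gap.Vg (dc h) r) (Gap.tv3 t) := by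
  rw [Gap.vvF, Jc_eq h hB]

end Fm

/-- **All inequalities from a list of numbers.** `Φ` serves for the shape operator, `Ψ` for the
residual. -/
theorem PtOK.of_num {c : Nm} {h : Imm f} {x : P3} (Φ Ψ : Fm.Fr h)
    {κ m N₁ N₂ κ' m' η M₁ M₂ ρ₀ ρ₁ : ℝ} (n0 : 0 ≤ c.α) (hκ : Φ.Kap x κ) (hm : Φ.m2 x ≤ m)
    (hA : Φ.q x ^ 6 * Fm.jQ Φ.p (cf f) x ≤ c.α ^ 2)
    (h1 : nr (fun p : I3 × (I4 × I4) => Φ.p p.1 (ch (uc (dc h).A p.2)) x) ≤ N₁)
    (h2 : nr (fun p : I3 × (I3 × (I4 × I4)) =>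
      Φ.p p.1 (Φ.p p.2.1 (ch (uc (dc h).A p.2.2))) x) ≤ N₂)
    (n1 : κ * N₁ ≤ c.a₁) (n2 : κ ^ 2 * (N₂ + 2 * m * (κ * N₁)) ≤ c.a₂)
    (hκ' : Ψ.Kap x κ') (hm' : Ψ.m2 x ≤ m') (g0 : |ch (dc h).R x| ≤ η)
    (g1 : nr (fun a => Ψ.p a (ch (dc h).R) x) ≤ M₁)
    (g2 : nr (fun p : I3 × I3 => Ψ.p p.1 (Ψ.p p.2 (ch (dc h).R)) x) ≤ M₂)
    (b0 : ρ₀ ≤ ch (rho h) x) (b1 : ch (rho h) x ≤ ρ₁)
    (n3 : ρ₁ * η ^ 2 ≤ c.ε₀ ^ 2) (n4 : ρ₁ * (κ' * M₁) ^ 2 ≤ c.ε₁ ^ 2)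
    (n5 : κ' ^ 2 * (M₂ + 2 * m' * (κ' * M₁)) ≤ c.e₂) (n6 : 1 ≤ c.s₀ ^ 2 * ρ₀)
    (s1 : κ ^ 2 * ∑ a, (∑ k, Φ.p a (cf f k) x * ch (Lap (f k)) x) ^ 2 ≤ c.s₁ ^ 2 * ρ₀)
    (s2 : ww x ^ 2 * (∑ a, ∑ b, jG (cf f) a b x ^ 2 + 2 * ∑ a, (∑ b, jG (cf f) a b x * x b) ^ 2 +
      (∑ a, ∑ b, jG (cf f) a b x * x a * x b) ^ 2) ≤ c.s₂ ^ 2 * ρ₀)
    (chk : Emb.Chk (fun j => cf f j x) fun j => Fm.jN Φ.p (cf f) j x) : PtOK c h x := by
  have a1 := hκ.d12 (uc (dc h).A) h1 h2 hm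
  have a2 := hκ'.s12 (dc h).R g1 g2 hm'
  have p1 : 0 ≤ ρ₁ := (rho_pos h _).le.trans b1
  have p0 : ∀ s : ℝ, s ^ 2 * ρ₀ ≤ s ^ 2 * ch (rho h) x := fun s =>
    mul_le_mul_of_nonneg_left b0 (sq_nonneg s)
  exact ⟨Φ.nr_A x n0 hA, a1.1.trans n1, a1.2.trans n2,
    (mul_le_mul b1 (sq_le_sq' (abs_le.1 g0).1 (abs_le.1 g0).2) (sq_nonneg _) p1).trans n3,
    (mul_le_mul b1 (pow_le_pow_left₀ (nr_nonneg _) a2.1 2) (sq_nonneg _) p1).trans n4,
    a2.2.trans n5, n6.trans (p0 _), ((hκ.tan _).trans s1).trans (p0 _),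
    ((met_eq f x).trans_le s2).trans (p0 _), Φ, chk⟩

end Pool.Agent.MP_48470b_gt.Dic
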