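import Pool.Agent.MP_48470b_gt.Dic.Nu
import Pool.Agent.MP_48470b_gt.An.Final
import Pool.Agent.MP_48470b_gt.Gap.G6

/-! Reduction of the pointwise hypotheses to the sorted cube of the chart. -/

open Finset Matrix

noncomputable section

namespace Pool.Agent.MP_48470b_gt.Dic

open Pool.Agent.MP_48470b_gt.Sph Pool.Agent.MP48470b.An
open Pool.Agent.MP_48470b_gt.Gap (SP ex_SP)

/-- the sorted cube -/
def SC (x : P3) : Prop := 0 ≤ x 0 ∧ x 0 ≤ x 1 ∧ x 1 ≤ x 2 ∧ x 2 ≤ 1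

theorem sc_of_ch {x : S3} (h : Emb.Ch x) : 0 < (x : E4) 3 ∧ SC (dn x) := by
  obtain ⟨h0, h1, h2, h3⟩ := h
  have h4 : 0 < (x : E4) 3 := by
    by_contra hc
    have e := normsq4 (x : E4)
    rw [S3.norm] at e
    have a0 : (x : E4) 0 = 0 := by linarith
    have a1 : (x : E4) 1 = 0 := by linarith
    have a2 : (x : E4) 2 = 0 := by linarith
    have a3 : (x : E4) 3 = 0 := by linarith
    simp [a0, a1, a2, a3] at e
  refine ⟨h4, ?_, ?_, ?_, ?_⟩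
  · exact div_nonneg h0 h4.le
  · exact div_le_div_of_nonneg_right h1 h4.le
  · exact div_le_div_of_nonneg_right h2 h4.le
  · exact (div_le_one h4).2 h3

theorem ex_ch (x : S3) : ∃ g, SP g ∧ Emb.Ch (sph g x) := by
  obtain ⟨g, hg, e⟩ := ex_SP (Tuple.sort fun i => |(x : E4) i|)
    (fun i => if 0 ≤ (x : E4) (Tuple.sort (fun i => |(x : E4) i|) i) then 1 else -1)
    fun i => by split_ifs <;> simp
  have e1 : ∀ i, g x i = |(x : E4) (Tuple.sort (fun i => |(x : E4) i|) i)| := fun i => by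
    rw [e]
    split_ifs with c
    · rw [one_mul, abs_of_nonneg c]
    · rw [neg_one_mul, abs_of_neg (not_le.1 c)]
  have m := Tuple.monotone_sort fun i => |(x : E4) i|
  refine ⟨g, hg, ?_, ?_, ?_, ?_⟩ <;> simp only [sph_coe, e1]
  exacts [abs_nonneg _, m (by decide : (0 : I4) ≤ 1), m (by decide : (1 : I4) ≤ 2),
    m (by decide : (2 : I4) ≤ 3)]

/-- **Reduction to the sorted cube.** -/
theorem red {P : S3 → Prop} (inv : ∀ g, SP g → ∀ x, P (sph g x) → P x)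
    (H : ∀ x, SC x → P (pr (up x))) (x : S3) : P x := by
  obtain ⟨g, hg, c⟩ := ex_ch x
  obtain ⟨c1, c2⟩ := sc_of_ch c
  exact inv g hg x (pr_up_dn c1 ▸ H _ c2)

theorem inv_apply {u : R} (hu : u ∈ Gap.Inv) {g : E4 ≃ₗᵢ[ℝ] E4} (hg : SP g) (x : S3) :
    u (sph g x) = u x := by rw [← act_apply, hu g hg]

/-- a statement about the values of two invariant functions -/
theorem red_inv {P : ℝ → ℝ → Prop} {u v : R} (hu : u ∈ Gap.Inv) (hv : v ∈ Gap.Inv)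
    (H : ∀ x, SC x → P (ch u x) (ch v x)) (x : S3) : P (u x) (v x) :=
  red (P := fun x => P (u x) (v x))
    (fun _ hg x hx => by rwa [inv_apply hu hg, inv_apply hv hg] at hx) H x

/-- the boxes of a grid with sorted indices cover the sorted cube -/
theorem cover {n D : ℕ} {br : ℕ → ℕ} (G : Gap.Grid n D br) {x : P3} (hx : SC x) :
    ∃ M : I3 → ℕ, M 0 ≤ M 1 ∧ M 1 ≤ M 2 ∧ M 2 < n ∧
      ∀ a, (br (M a) : ℝ) ≤ D * x a ∧ D * x a ≤ br (M a + 1) := by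
  have hD : (0 : ℝ) < D := Nat.cast_pos.2 G.pos
  have hn : 0 < n := Nat.pos_of_ne_zero fun e => by
    have := G.hn
    rw [e, G.h0] at this
    exact G.pos.ne this
  have ex : ∀ t : ℝ, t ≤ 1 → ∃ i, D * t ≤ (br (i + 1) : ℝ) := fun t ht =>
    ⟨n - 1, by rw [Nat.sub_add_cancel hn, G.hn]; nlinarith⟩
  obtain ⟨h0, h1, h2, h3⟩ := hx
  have b : ∀ a, 0 ≤ x a ∧ x a ≤ 1 := fun a => by
    fin_cases a
    exacts [⟨h0, (h1.trans h2).trans h3⟩, ⟨h0.trans h1, h2.trans h3⟩, ⟨(h0.trans h1).trans h2, h3⟩]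
  classical
  have mono : ∀ a c, x a ≤ x c → Nat.find (ex _ (b a).2) ≤ Nat.find (ex _ (b c).2) :=
    fun a c hac => Nat.find_min' _
      ((mul_le_mul_of_nonneg_left hac hD.le).trans (Nat.find_spec (ex _ (b c).2)))
  refine ⟨fun a => Nat.find (ex _ (b a).2), mono 0 1 h1, mono 1 2 h2, ?_, fun a =>
    ⟨?_, Nat.find_spec (ex _ (b a).2)⟩⟩
  · refine lt_of_le_of_lt (Nat.find_min' _ ?_) (Nat.sub_lt hn one_pos)
    rw [show n - 1 + 1 = n by omega, G.hn]; nlinarith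
  · rcases Nat.eq_zero_or_eq_succ_pred (Nat.find (ex _ (b a).2)) with e | e
    · simp only [e, G.h0, Nat.cast_zero]
      exact mul_nonneg hD.le (b a).1
    · have := Nat.find_min (ex _ (b a).2) (m := (Nat.find (ex _ (b a).2)).pred) (by omega)
      simp only
      rw [e]
      exact (not_le.1 this).le

variable {f : I4 → R} {ι : Type*} {g : E4 ≃ₗᵢ[ℝ] E4}

/-- immersions -/
theorem imm_of_box (he : Eqv f {g | SP g})
    (H : ∀ x, SC x → ∃ B, 0 < Fm.jD (Fm.pb B) (cf f) x) : Imm f := by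
  refine red (P := fun x => 0 < gram f x)
    (fun g hg x hx => by rwa [act_gram (ev_iff.2 (he g hg))] at hx) fun x hx => ?_
  obtain ⟨B, hB⟩ := H x hx
  rw [Fm.jD_pb, C3.smul_apply] at hB
  have h1 : 0 < jD (cf f) x := pos_of_mul_pos_right hB (sq_nonneg _)
  have h2 := one_le_ww x
  rw [← ch_apply', ch_gram, C3.mul_apply, C3.pow_apply]
  positivity

/-- families that are permuted up to signs -/
def SE (g : E4 ≃ₗᵢ[ℝ] E4) (v : ι → R) : Prop :=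
  ∃ (τ : Equiv.Perm ι) (e : ι → ℝ), (∀ j, e j ^ 2 = 1) ∧ ∀ j, act g (v j) = e j • v (τ j)

theorem SE.nr [Fintype ι] {v : ι → R} (h : SE g v) (x : S3) :
    nr (fun j => v j (sph g x)) = nr fun j => v j x := by
  obtain ⟨τ, e, h1, h2⟩ := h
  rw [← nr_equiv τ fun j => v j x]
  refine congrArg Real.sqrt (sum_congr rfl fun j _ => ?_)
  simp only [← act_apply, h2, R.smul_apply, mul_pow, h1, one_mul]

theorem sgn_sq {ε : I4 → ℝ} (h : ∀ i, ε i = 1 ∨ ε i = -1) (i : I4) : ε i ^ 2 = 1 := by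
  rcases h i with e | e <;> simp [e]

theorem se_of_eqv {v : I4 → R} (he : Eqv v {g | SP g}) (hg : SP g) : SE g v := by
  obtain ⟨σ, ε, h1, h2⟩ := id hg
  exact ⟨σ, ε, sgn_sq h1, fun j => R.ext fun x => by simp [he g hg x j, h2]⟩

theorem SE.dT (h : Imm f) (he : Eqv f {g | SP g}) (hg : SP g) {v : ι → R} (hv : SE g v) :
    SE g ((dc h).dT v) := by
  obtain ⟨σ, ε, h1, h2⟩ := id hg
  obtain ⟨τ, e, h3, h4⟩ := hv
  refine ⟨σ.prodCongr τ, fun p => ε p.1 * e p.2, fun p => by rw [mul_pow, sgn_sq h1, h3, one_mul],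
    fun p => R.ext fun x => ?_⟩
  simp [DC.dT, gr_eqv h he hg, h2, h4, DC.gr, mul_assoc]

theorem se_gr (h : Imm f) (he : Eqv f {g | SP g}) (hg : SP g) {u : R} (hu : u ∈ Gap.Inv) :
    SE g ((dc h).gr u) :=
  se_of_eqv (fun g hg x i => by rw [DC.gr, gr_eqv h he hg, hu g hg]) hg

theorem se_A (h : Imm f) (he : Eqv f {g | SP g}) (hg : SP g) : SE g (uc (dc h).A) :=
  (se_of_eqv (ν_eqv h he) hg).dT h he hg

theorem eqv_Lap (he : Eqv f {g | SP g}) : Eqv (fun k => Lap (f k)) {g | SP g} := by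
  intro g hg x i
  obtain ⟨σ, ε, -, h2⟩ := id hg
  have e : act g (f i) = ε i • f (σ i) := R.ext fun x => by simp [he g hg x i, h2]
  rw [← act_apply, act_Lap, e, h2, map_smul]
  rfl

theorem se_met (he : Eqv f {g | SP g}) (hg : SP g) :
    SE g fun p : I4 × I4 => ∑ a, E a (f p.1) * E a (f p.2) := by
  obtain ⟨τ, e, h3, h4⟩ := se_of_eqv he hg
  refine ⟨τ.prodCongr τ, fun p => e p.1 * e p.2, fun p => by rw [mul_pow, h3, h3, one_mul],
    fun p => ?_⟩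
  rw [act_grad, h4, h4, smul_sum]
  exact sum_congr rfl fun a _ => by simp [smul_smul, mul_comm]

theorem met_sq (f : I4 → R) (x : S3) : ∑ a, ∑ b, (∑ k, E a (f k) x * E b (f k) x) ^ 2 =
    nr (fun p : I4 × I4 => (∑ a, E a (f p.1) * E a (f p.2)) x) ^ 2 := by
  simp only [nr_sq, Fintype.sum_prod_type, Fin.sum_univ_three, Fin.sum_univ_four, R.add_apply,
    R.mul_apply]
  ring

/-- the constants -/
structure Nm where
  α : ℝ
  a₁ : ℝ
  a₂ : ℝ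
  ε₀ : ℝ
  ε₁ : ℝ
  e₂ : ℝ
  s₀ : ℝ
  s₁ : ℝ
  s₂ : ℝ

/-- the inequalities at a point of the chart -/
structure PtOK (c : Nm) (h : Imm f) (x : P3) : Prop where
  hA : nr (fun p => ch (uc (dc h).A p) x) ≤ c.α
  hA' : nr (fun p => ch ((dc h).dT (uc (dc h).A) p) x) ≤ c.a₁
  hA'' : nr (fun p => ch ((dc h).dT ((dc h).dT (uc (dc h).A)) p) x) ≤ c.a₂
  r0 : ch (rho h) x * ch (dc h).R x ^ 2 ≤ c.ε₀ ^ 2
  r1 : ch (rho h) x * nr (fun i => ch ((dc h).gr (dc h).R i) x) ^ 2 ≤ c.ε₁ ^ 2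
  r2 : nr (fun p => ch ((dc h).dT ((dc h).gr (dc h).R) p) x) ≤ c.e₂
  s0 : 1 ≤ c.s₀ ^ 2 * ch (rho h) x
  s1 : ∑ k, ch (Lap (f k)) x ^ 2 - (∑ k, ch ((dc h).ν k) x * ch (Lap (f k)) x) ^ 2 ≤
    c.s₁ ^ 2 * ch (rho h) x
  s2 : ∑ a, ∑ b, (∑ k, ch (E a (f k)) x * ch (E b (f k)) x) ^ 2 ≤ c.s₂ ^ 2 * ch (rho h) x
  chk : ∃ Φ : Fm.Fr h, Emb.Chk (fun j => cf f j x) fun j => Fm.jN Φ.p (cf f) j x

/-- the inequalities on the sphere -/
structure AllOK (c : Nm) (h : Imm f) : Prop where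
  hA : ∀ x, (wi h).vn (uc (dc h).A) x ≤ c.α
  hA' : ∀ x, (wi h).vn (uc3 (dc h).A') x ≤ c.a₁
  hA'' : ∀ x, (wi h).vn ((dc h).dT (uc3 (dc h).A')) x ≤ c.a₂
  r0 : ∀ x, rho h x * (dc h).R x ^ 2 ≤ c.ε₀ ^ 2
  r1 : ∀ x, rho h x * (wi h).vn ((dc h).gr (dc h).R) x ^ 2 ≤ c.ε₁ ^ 2
  r2 : ∀ x, (wi h).vn ((dc h).dT ((dc h).gr (dc h).R)) x ≤ c.e₂
  s0 : ∀ x, 1 ≤ c.s₀ ^ 2 * rho h x
  s1 : ∀ x, ∑ k, Lap (f k) x ^ 2 - (∑ k, (dc h).ν k x * Lap (f k) x) ^ 2 ≤ c.s₁ ^ 2 * rho h x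
  s2 : ∀ x, ∑ a, ∑ b, (∑ k, E a (f k) x * E b (f k) x) ^ 2 ≤ c.s₂ ^ 2 * rho h x
  chk : ∀ x : S3, Emb.Ch x → ∃ N : Fin 4 → ℝ, Emb.Chk (fun j => f j x) N ∧
    ∀ i, ∑ j, E i (f j) x * N j = 0

theorem Fm.Fr.E_perp {h : Imm f} (Φ : Fm.Fr h) (i : I3) (x : P3) :
    ∑ j, ch (E i (f j)) x * Fm.jN Φ.p (cf f) j x = 0 := by
  have h1 := congrArg (fun u : R => ch u x) ((fr h).νT i)
  have h2 : ∀ k, ch ((fr h).ν k) = -(Φ.q * Fm.jN Φ.p (cf f) k) := Φ.nu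
  have h3 : ∀ k, (fr h).T k i = E i (f k) := fun _ => rfl
  simp only [map_add, map_mul, map_zero, h2, h3, Fin.sum_univ_four, C3.add_apply, C3.mul_apply,
    C3.neg_apply, C3.zero_apply] at h1 ⊢
  refine mul_left_cancel₀ (Φ.pos x).ne' ?_
  linear_combination -h1

/-- **From the sorted cube to the sphere.** -/
theorem all_of_box {c : Nm} (h : Imm f) (he : Eqv f {g | SP g}) (H : ∀ x, SC x → PtOK c h x) :
    AllOK c h := by
  have hρ : rho h ∈ Gap.Inv := rho_inv h he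
  have hR : (dc h).R ∈ Gap.Inv := R_inv h he
  refine ⟨red (fun g hg x hx => ((se_A h he hg).nr x).ge.trans hx) fun x hx => (H x hx).hA,
    red (fun g hg x hx => (((se_A h he hg).dT h he hg).nr x).ge.trans hx)
      fun x hx => (H x hx).hA',
    red (fun g hg x hx => ((((se_A h he hg).dT h he hg).dT h he hg).nr x).ge.trans hx)
      fun x hx => (H x hx).hA'',
    red_inv (P := fun a b => a * b ^ 2 ≤ c.ε₀ ^ 2) hρ hR fun x hx => (H x hx).r0,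
    red (fun g hg x hx => ?_) fun x hx => (H x hx).r1,
    red (fun g hg x hx => (((se_gr h he hg hR).dT h he hg).nr x).ge.trans hx)
      fun x hx => (H x hx).r2,
    red_inv (P := fun a _ => 1 ≤ c.s₀ ^ 2 * a) hρ hρ fun x hx => (H x hx).s0,
    red (fun g hg x hx => ?_) fun x hx => (H x hx).s1,
    red (fun g hg x hx => ?_) fun x hx => (H x hx).s2, fun x hx => ?_⟩
  · have e : (wi h).vn ((dc h).gr (dc h).R) (sph g x) = (wi h).vn ((dc h).gr (dc h).R) x :=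
      (se_gr h he hg hR).nr x
    rwa [e, inv_apply hρ hg] at hx
  · have e1 := inv_apply (Gap.dot_inv (eqv_Lap he) (eqv_Lap he)) hg x
    have e2 := inv_apply (Gap.dot_inv (ν_eqv h he) (eqv_Lap he)) hg x
    simp only [R.sum_apply, R.mul_apply, R.pow_apply, ← sq] at e1 e2
    rwa [e1, e2, inv_apply hρ hg] at hx
  · rwa [met_sq, (se_met he hg).nr, ← met_sq, inv_apply hρ hg] at hx
  · obtain ⟨c1, c2⟩ := sc_of_ch hx
    obtain ⟨Φ, c3⟩ := (H _ c2).chk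
    refine ⟨_, by simpa only [cf, ch_dn _ c1] using c3, fun i => ?_⟩
    simpa only [ch_dn _ c1] using Φ.E_perp i (dn x)

theorem two_radii {d : ℝ} (hr : ∃ x y, nr (fun k => cf f k x) + d < nr fun k => cf f k y) :
    ∃ x y, nr (fun k => f k x) + d < nr fun k => f k y := by
  obtain ⟨x, y, hxy⟩ := hr
  exact ⟨pr (up x), pr (up y), hxy⟩

/-- the constants of the first numerical instance -/
def nm1 : Nm := ⟨19 / 2, 4000, 10 ^ 8, 2 / 10 ^ 11, 2 / 10 ^ 5, 10 ^ 4, 9, 1200, 1500⟩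

/-- the weighted residual of an approximate eigenfunction -/
theorem res_box (h : Imm f) (he : Eqv f {g | SP g}) {φ : R} (hφ : φ ∈ Gap.Inv) {lam η : ℝ}
    (H : ∀ x, SC x → ch (rho h) x * (ch ((dc h).L φ) x + lam * ch φ x) ^ 2 ≤ η ^ 2) :
    (wi h).I (((dc h).L φ + lam • φ) ^ 2) ≤ η ^ 2 :=
  Gap.wi_le h (red_inv (P := fun a b => a * b ^ 2 ≤ η ^ 2) (rho_inv h he)
    (Gap.Inv.add_mem (L_inv h he hφ) (Gap.Inv.smul_mem lam hφ)) H)

theorem sq_box (he : Eqv f {g | SP g}) {m : ℝ} (hm : ∀ x, SC x → ∑ k, cf f k x ^ 2 ≤ m) :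
    ∀ x, ∑ k, f k x ^ 2 ≤ m := by
  refine red (fun g hg x hx => ?_) hm
  have e1 := inv_apply (Gap.dot_inv he he) hg x
  simp only [R.sum_apply, R.pow_apply, ← sq] at e1
  rwa [e1] at hx

/-- the residual of the support function -/
theorem AllOK.res_lam {c : Nm} {h : Imm f} (H : AllOK c h) (e0 : 0 ≤ c.ε₀) (e1 : 0 ≤ c.ε₁) {m : ℝ}
    (h0 : 0 ≤ m) (hm : ∀ x, ∑ k, f k x ^ 2 ≤ m ^ 2) :
    (wi h).I (((dc h).L (dc h).lam + (-1 : ℝ) • (dc h).lam) ^ 2) ≤ (c.ε₀ + m * c.ε₁) ^ 2 :=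
  Gap.res_lam h (dom_of_pt h (s := (dc h).R ^ 2) e0 (fun x => by simp [IS.v0]) H.r0)
    (dom_of_pt h (s := ∑ i, (dc h).gr (dc h).R i ^ 2) e1 (fun x => ((wi h).vn_sq _ x).le) fun x =>
      (congrArg (rho h x * ·) ((wi h).vn_sq ((dc h).gr (dc h).R) x).symm).trans_le (H.r1 x)) h0 hm

end Pool.Agent.MP_48470b_gt.Dic
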